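import Mathlib

/-!
# Stationary subsets of a well-order of type `ω₁`

Fodor's lemma and the closure lemmas for club subsets of a well-order all of whose proper initial
segments are countable and which is itself uncountable.
-/

set_option autoImplicit false

open Cardinal Order Set

universe u

namespace Pool.Agent.Lib.H45Osc

/-- Every proper initial segment of `W` is countable, and `W` is uncountable. -/
structure IsOmega1 (W : Type u) [LinearOrder W] : Prop where
  countable_Iio : ∀ i : W, (Set.Iio i).Countable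
  not_countable : ¬ (Set.univ : Set W).Countable

variable {W : Type u} [LinearOrder W] [WellFoundedLT W]

namespace IsOmega1

theorem countable_Iic (h : IsOmega1 W) (i : W) : (Set.Iic i).Countable := by
  have h1 : Set.Iic i = insert i (Set.Iio i) := by
    ext x
    simp only [Set.mem_Iic, Set.mem_insert_iff, Set.mem_Iio]
    exact le_iff_eq_or_lt
  rw [h1]
  exact (h.countable_Iio i).insert i

theorem exists_gt (h : IsOmega1 W) {s : Set W} (hs : s.Countable) : ∃ b, ∀ x ∈ s, x < b := by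
  by_contra hne
  push Not at hne
  apply h.not_countable
  have h1 : (⋃ x ∈ s, Set.Iic x).Countable := hs.biUnion fun x _ => h.countable_Iic x
  refine h1.mono ?_
  intro b _
  obtain ⟨x, hx, hbx⟩ := hne b
  exact Set.mem_biUnion hx hbx

theorem nonempty (h : IsOmega1 W) : Nonempty W := by
  by_contra hne
  rw [not_nonempty_iff] at hne
  exact h.not_countable (Set.countable_univ)

theorem exists_lt (h : IsOmega1 W) (i : W) : ∃ j, i < j := by
  obtain ⟨b, hb⟩ := h.exists_gt (Set.countable_singleton i)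
  exact ⟨b, hb i rfl⟩

theorem cof_ne (h : IsOmega1 W) : Order.cof W ≠ ℵ₀ := by
  intro hc
  obtain ⟨s, hs, hs'⟩ := Order.exists_cof_eq (α := W)
  rw [hc] at hs'
  have h1 : s.Countable := by
    rw [← le_aleph0_iff_set_countable, hs']
  obtain ⟨b, hb⟩ := h.exists_gt h1
  obtain ⟨x, hx, hbx⟩ := hs b
  exact absurd (hb x hx) (not_lt.2 hbx)

/-- A bounded nonempty set has a least upper bound. -/
theorem exists_isLUB {s : Set W} {b : W} (hb : ∀ x ∈ s, x ≤ b) : ∃ a, IsLUB s a := by
  obtain ⟨a, ha, hmin⟩ := WellFounded.has_min (wellFounded_lt (α := W)) {y | ∀ x ∈ s, x ≤ y} ⟨b, hb⟩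
  exact ⟨a, ha, fun y hy => not_lt.1 (hmin y hy)⟩

theorem exists_isLUB_range (h : IsOmega1 W) (g : ℕ → W) : ∃ a, IsLUB (Set.range g) a := by
  obtain ⟨b, hb⟩ := h.exists_gt (Set.countable_range g)
  exact exists_isLUB (fun x hx => (hb x hx).le)

/-- Diagonal intersections of clubs are clubs. -/
theorem isClub_diag (h : IsOmega1 W) (C : W → Set W) (hC : ∀ v, IsClub (C v)) :
    IsClub {i | ∀ v < i, i ∈ C v} := by
  constructor
  · intro d hd hne _ a ha v hv
    obtain ⟨i, hi, hvi⟩ := (lt_isLUB_iff ha).1 hv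
    refine (hC v).isLUB_mem (t := {x ∈ d | v < x}) ?_ ⟨i, hi, hvi⟩ ?_
    · rintro x ⟨hx, hvx⟩
      exact hd hx v hvx
    · constructor
      · rintro x ⟨hx, _⟩
        exact ha.1 hx
      · intro y hy
        refine ha.2 ?_
        intro x hx
        rcases le_or_gt x v with hxv | hxv
        · exact hxv.trans (hvi.le.trans (hy ⟨hi, hvi⟩))
        · exact hy ⟨hx, hxv⟩
  · intro b
    have h1 : ∀ i : W, ∃ j, i < j ∧ ∀ v < i, j ∈ C v := by
      intro i
      have h2 : IsClub (⋂ v : Set.Iio i, C v.1) := by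
        haveI : Countable (Set.Iio i) := (h.countable_Iio i).to_subtype
        exact IsClub.iInter_of_countable h.cof_ne fun v => hC v.1
      obtain ⟨j, hij⟩ := h.exists_lt i
      obtain ⟨k, hk, hjk⟩ := h2.isCofinal j
      refine ⟨k, lt_of_lt_of_le hij hjk, ?_⟩
      intro v hv
      exact Set.mem_iInter.1 hk ⟨v, hv⟩
    choose f hf1 hf2 using h1
    let g : ℕ → W := fun n => f^[n] b
    have hg : ∀ n, g (n + 1) = f (g n) := fun n => Function.iterate_succ_apply' f n b
    have hgm : StrictMono g := strictMono_nat_of_lt_succ fun n => by rw [hg]; exact hf1 _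
    obtain ⟨a, ha⟩ := h.exists_isLUB_range g
    refine ⟨a, ?_, ha.1 ⟨0, rfl⟩⟩
    intro v hv
    obtain ⟨_, ⟨n, rfl⟩, hvn⟩ := (lt_isLUB_iff ha).1 hv
    refine (hC v).isLUB_mem (t := g '' Set.Ioi n) ?_ ⟨g (n + 1), n + 1, Nat.lt_succ_self n, rfl⟩ ?_
    · rintro _ ⟨m, hm, rfl⟩
      obtain ⟨k, rfl⟩ : ∃ k, m = k + 1 := ⟨m - 1, by have := Set.mem_Ioi.1 hm; omega⟩
      rw [hg]
      refine hf2 _ v (hvn.trans_le (hgm.monotone ?_))
      have := Set.mem_Ioi.1 hm
      omega
    · constructor
      · rintro _ ⟨m, _, rfl⟩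
        exact ha.1 ⟨m, rfl⟩
      · intro y hy
        refine ha.2 ?_
        rintro _ ⟨m, rfl⟩
        rcases le_or_gt m n with hmn | hmn
        · exact (hgm.monotone (hmn.trans (Nat.le_succ n))).trans (hy ⟨n + 1, Nat.lt_succ_self n, rfl⟩)
        · exact hy ⟨m, hmn, rfl⟩

theorem isClub_Ioi (h : IsOmega1 W) (b : W) : IsClub (Set.Ioi b) := by
  constructor
  · intro d hd hne _ a ha
    obtain ⟨i, hi⟩ := hne
    exact lt_of_lt_of_le (hd hi) (ha.1 hi)
  · intro c
    obtain ⟨j, hj⟩ := h.exists_lt (max b c)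
    exact ⟨j, (le_max_left b c).trans_lt hj, ((le_max_right b c).trans_lt hj).le⟩

/-- The points closed under `F` form a club. -/
theorem isClub_closed (h : IsOmega1 W) (F : W → W) : IsClub {i | ∀ v < i, F v < i} :=
  h.isClub_diag (fun v => Set.Ioi (F v)) fun v => h.isClub_Ioi (F v)

/-- The points closed under countably many unary functions form a club. -/
theorem isClub_closed_nat (h : IsOmega1 W) (F : ℕ → W → W) : IsClub {i | ∀ v < i, ∀ n, F n v < i} := by
  have h1 : IsClub (⋂ n, {i | ∀ v < i, F n v < i}) :=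
    IsClub.iInter_of_countable h.cof_ne fun n => h.isClub_closed (F n)
  have h2 : {i | ∀ v < i, ∀ n, F n v < i} = ⋂ n, {i | ∀ v < i, F n v < i} := by
    ext i
    simp only [Set.mem_setOf_eq, Set.mem_iInter]
    exact ⟨fun H n v hv => H v hv n, fun H v hv n => H n v hv⟩
  rw [h2]
  exact h1

theorem inter_club (h : IsOmega1 W) {S C : Set W} (hS : IsStationary S) (hC : IsClub C) :
    IsStationary (S ∩ C) := by
  intro t ht
  obtain ⟨x, hx1, hx2, hx3⟩ := hS (hC.inter h.cof_ne ht)
  exact ⟨x, ⟨hx1, hx2⟩, hx3⟩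

/-- Fodor's lemma. -/
theorem fodor (h : IsOmega1 W) {S : Set W} (hS : IsStationary S) (f : W → W)
    (hf : ∀ i ∈ S, f i < i) : ∃ v, IsStationary {i ∈ S | f i = v} := by
  by_contra hne
  push Not at hne
  have h1 : ∀ v, ∃ C, IsClub C ∧ Disjoint {i ∈ S | f i = v} C := fun v =>
    not_isStationary_iff.1 (hne v)
  choose C hC hdisj using h1
  obtain ⟨i, hiS, hi⟩ := hS (h.isClub_diag C hC)
  exact Set.disjoint_left.1 (hdisj (f i)) ⟨hiS, rfl⟩ (hi _ (hf i hiS))

/-- Countable partitions. -/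
theorem pigeon (h : IsOmega1 W) {ι : Type} [Countable ι] {S : Set W} (hS : IsStationary S)
    (P : ι → W → Prop) (hP : ∀ i ∈ S, ∃ n, P n i) : ∃ n, IsStationary {i ∈ S | P n i} := by
  rw [← isStationary_iUnion_iff_of_countable h.cof_ne]
  refine hS.mono ?_
  intro i hi
  obtain ⟨n, hn⟩ := hP i hi
  exact Set.mem_iUnion.2 ⟨n, hi, hn⟩

/-- Either the complement of `D` is stationary, or `D` contains a club. -/
theorem club_of_not_stat {D : Set W} (hD : ¬ IsStationary Dᶜ) : ∃ C, IsClub C ∧ C ⊆ D := by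
  obtain ⟨C, hC, hdisj⟩ := not_isStationary_iff.1 hD
  refine ⟨C, hC, ?_⟩
  intro x hx
  by_contra hxD
  exact Set.disjoint_left.1 hdisj hxD hx

end IsOmega1

end Pool.Agent.Lib.H45Osc
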