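import Pool.Agent.Lib.H45Osc.Rho

/-!
# Colourings of `[ω₂]²` that take all values on closed copies of `ω₁`

Given a map `f` on the finite subsets of `ω₂` with countable ordinal values, a colouring `col f`
of pairs is defined from oscillations of ladders, the function `ρ` and the closure points of `f`.
It is shown that `col f` takes all countable ordinals as values on every closed copy of `ω₁` below
`ω₂` provided that `f` is unbounded on every closed copy of `ω₁` below `ω₂`.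
-/

set_option autoImplicit false

open Cardinal Order Set

namespace Pool.Agent.Lib.H45Osc

theorem lad_le (γ : Ordinal.{0}) (p : ℕ) : lad γ p ≤ γ := by
  by_cases h : ∃ s : ℕ → Ordinal.{0}, StrictMono s ∧ (∀ n, s n < γ) ∧ ∀ x < γ, ∃ n, x < s n
  · exact ((lad_spec h).2.1 p).le
  · unfold lad
    rw [dif_neg h]
    exact bot_le

/-- The points attached to the pair `β, γ`. -/
noncomputable def pt (k : ℕ) (β γ : Ordinal.{0}) : Ordinal.{0} :=
  if k.unpair.1 = 0 then β else if k.unpair.1 = 1 then γ else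
    if k.unpair.1 = 2 then lad β k.unpair.2 else lad γ k.unpair.2

theorem pt_zero (β γ : Ordinal.{0}) : pt (Nat.pair 0 0) β γ = β := by
  simp [pt]

theorem pt_one (β γ : Ordinal.{0}) : pt (Nat.pair 1 0) β γ = γ := by
  simp [pt]

theorem pt_two (p : ℕ) (β γ : Ordinal.{0}) : pt (Nat.pair 2 p) β γ = lad β p := by
  simp [pt]

theorem pt_three (p : ℕ) (β γ : Ordinal.{0}) : pt (Nat.pair 3 p) β γ = lad γ p := by
  simp [pt]

theorem pt_le (k : ℕ) {β γ : Ordinal.{0}} (h : β < γ) : pt k β γ ≤ γ := by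
  unfold pt
  split_ifs
  · exact h.le
  · exact le_rfl
  · exact (lad_le _ _).trans h.le
  · exact lad_le _ _

/-- The symmetric version of `ρ`. -/
noncomputable def rho' (x y : Ordinal.{0}) : Ordinal.{0} := rho (min x y) (max x y)

theorem rho'_of_lt {x y : Ordinal.{0}} (h : x < y) : rho' x y = rho x y := by
  unfold rho'
  rw [min_eq_left h.le, max_eq_right h.le]

theorem rho'_of_gt {x y : Ordinal.{0}} (h : y < x) : rho' x y = rho y x := by
  unfold rho'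
  rw [min_eq_right h.le, max_eq_left h.le]

theorem w1_pos : (0 : Ordinal.{0}) < w1 := by
  obtain ⟨b⟩ := isOmega1_W.nonempty
  exact bot_le.trans_lt b.2

theorem rho'_lt {x y : Ordinal.{0}} (hx : x < w2) (hy : y < w2) : rho' x y < w1 := by
  rcases lt_trichotomy x y with h | h | h
  · rw [rho'_of_lt h]
    exact rho_lt h hy
  · subst h
    unfold rho' rho
    rw [min_self, max_self]
    have h1 : {ν | Lev ν x x} = ∅ := by
      ext ν
      simp only [Set.mem_ofPred_eq, Set.mem_empty_iff_false, iff_false]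
      intro h
      exact lt_irrefl _ h.lt
    rw [h1, Ordinal.sInf_empty]
    exact w1_pos
  · rw [rho'_of_gt h]
    exact rho_lt h hx

/-- `ν` is closed for `f` below `γ`. -/
def Clo (f : Finset Ordinal.{0} → Ordinal.{0}) (γ ν : Ordinal.{0}) : Prop :=
  ∀ F : Finset Ordinal.{0}, (∀ x ∈ F, x < γ ∧ rho x γ < ν) → f F < ν

theorem exists_clo {f : Finset Ordinal.{0} → Ordinal.{0}} (hf : ∀ F, f F < w1) {γ : Ordinal.{0}}
    (hγ : γ < w2) {l : Ordinal.{0}} (hl : l < w1) : ∃ ν < w1, l < ν ∧ Clo f γ ν := by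
  have h1 : ∀ μ : Set.Iio w1, ∃ b : Set.Iio w1, μ < b ∧
      ∀ F : Finset Ordinal.{0}, (∀ x ∈ F, x < γ ∧ rho x γ ≤ μ.1) → f F < b.1 := by
    intro μ
    have h2 : {x | x < γ ∧ rho x γ ≤ μ.1}.Countable := rho_countable hγ μ.2
    have h3 : {F : Finset Ordinal.{0} | ∀ x ∈ F, x < γ ∧ rho x γ ≤ μ.1}.Countable := by
      have h4 := Set.countable_ofPred_finite_subset h2
      have h5 := h4.preimage (f := fun F : Finset Ordinal.{0} => (F : Set Ordinal.{0}))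
        Finset.coe_injective
      refine h5.mono ?_
      intro F hF
      exact ⟨F.finite_toSet, fun x hx => hF x hx⟩
    obtain ⟨b, hb1, hb2⟩ := exists_bound_w1 (h3.image f) (by rintro _ ⟨F, _, rfl⟩; exact hf F)
    obtain ⟨b', hb'⟩ := isOmega1_W.exists_lt (max μ ⟨b, hb1⟩)
    refine ⟨b', (le_max_left _ _).trans_lt hb', ?_⟩
    intro F hF
    have h6 : (⟨b, hb1⟩ : Set.Iio w1) < b' := (le_max_right _ _).trans_lt hb'
    exact (hb2 _ ⟨F, hF, rfl⟩).trans h6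
  choose g hg1 hg2 using h1
  let s : ℕ → Set.Iio w1 := fun n => g^[n] ⟨l, hl⟩
  have hs : ∀ n, s (n + 1) = g (s n) := fun n => Function.iterate_succ_apply' g n _
  have hsm : StrictMono s := strictMono_nat_of_lt_succ fun n => by rw [hs]; exact hg1 _
  obtain ⟨a, ha⟩ := isOmega1_W.exists_isLUB_range s
  refine ⟨a.1, a.2, ?_, ?_⟩
  · have h2 : s 0 < a := (hsm Nat.zero_lt_one).trans_le (ha.1 ⟨1, rfl⟩)
    exact h2
  · intro F hF
    have h3 : ∀ x ∈ F, ∃ n, rho x γ < (s n).1 := by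
      intro x hx
      have h6 : (⟨rho x γ, (hF x hx).2.trans a.2⟩ : Set.Iio w1) < a := (hF x hx).2
      obtain ⟨_, ⟨n, rfl⟩, hn⟩ := (lt_isLUB_iff ha).1 h6
      exact ⟨n, hn⟩
    choose! N hN using h3
    have h4 : f F < (s (F.sup N + 1)).1 := by
      rw [hs]
      refine hg2 _ F ?_
      intro x hx
      refine ⟨(hF x hx).1, ?_⟩
      refine (hN x hx).le.trans ?_
      have h5 : s (N x) ≤ s (F.sup N) := hsm.monotone (Finset.le_sup hx)
      exact h5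
    exact h4.trans_le (ha.1 ⟨_, rfl⟩)

/-- The least closed ordinal above `l`. -/
noncomputable def hh (f : Finset Ordinal.{0} → Ordinal.{0}) (γ l : Ordinal.{0}) : Ordinal.{0} :=
  sInf {ν | ν < w1 ∧ l < ν ∧ Clo f γ ν}

theorem hh_spec {f : Finset Ordinal.{0} → Ordinal.{0}} (hf : ∀ F, f F < w1) {γ : Ordinal.{0}}
    (hγ : γ < w2) {l : Ordinal.{0}} (hl : l < w1) :
    hh f γ l < w1 ∧ l < hh f γ l ∧ Clo f γ (hh f γ l) := by
  obtain ⟨ν, h1, h2, h3⟩ := exists_clo hf hγ hl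
  exact csInf_mem (s := {ν | ν < w1 ∧ l < ν ∧ Clo f γ ν}) ⟨ν, h1, h2, h3⟩

/-- The countable ordinals attached to a pair. -/
noncomputable def qt (f : Finset Ordinal.{0} → Ordinal.{0}) (t : ℕ) (β γ : Ordinal.{0}) :
    Ordinal.{0} :=
  if t.unpair.1 = 0 then rho' (pt t.unpair.2.unpair.1 β γ) (pt t.unpair.2.unpair.2 β γ) else
    hh f γ (rho' (pt t.unpair.2.unpair.1 β γ) (pt t.unpair.2.unpair.2 β γ))

theorem qt_zero (f : Finset Ordinal.{0} → Ordinal.{0}) (k l : ℕ) (β γ : Ordinal.{0}) :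
    qt f (Nat.pair 0 (Nat.pair k l)) β γ = rho' (pt k β γ) (pt l β γ) := by
  simp [qt]

theorem qt_one (f : Finset Ordinal.{0} → Ordinal.{0}) (k l : ℕ) (β γ : Ordinal.{0}) :
    qt f (Nat.pair 1 (Nat.pair k l)) β γ = hh f γ (rho' (pt k β γ) (pt l β γ)) := by
  simp [qt]

theorem qt_lt {f : Finset Ordinal.{0} → Ordinal.{0}} (hf : ∀ F, f F < w1) (t : ℕ)
    {β γ : Ordinal.{0}} (h : β < γ) (hγ : γ < w2) : qt f t β γ < w1 := by
  have h1 : ∀ k l, rho' (pt k β γ) (pt l β γ) < w1 := fun k l =>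
    rho'_lt ((pt_le k h).trans_lt hγ) ((pt_le l h).trans_lt hγ)
  unfold qt
  split_ifs
  · exact h1 _ _
  · exact (hh_spec hf hγ (h1 _ _)).1

/-- The colouring. -/
noncomputable def col (f : Finset Ordinal.{0} → Ordinal.{0}) (β γ : Ordinal.{0}) : Ordinal.{0} :=
  en (qt f (psi (osc lad β γ)).unpair.1 β γ) (psi (osc lad β γ)).unpair.2

theorem col_lt {f : Finset Ordinal.{0} → Ordinal.{0}} (hf : ∀ F, f F < w1)
    {β γ : Ordinal.{0}} (h : β < γ) (hγ : γ < w2) : col f β γ < w1 :=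
  (en_le _ _).trans_lt (qt_lt hf _ h hγ)

/-- The colour `ξ` is missing on `A`. -/
def Miss (f : Finset Ordinal.{0} → Ordinal.{0}) (A : Set Ordinal.{0}) (ξ : Ordinal.{0}) : Prop :=
  ∀ α ∈ A, ∀ β ∈ A, α < β → col f α β ≠ ξ

/-- Equality, or both below `θ`. -/
def Sim (θ u v : Ordinal.{0}) : Prop := u = v ∨ (u < θ ∧ v < θ)

theorem Sim.symm {θ u v : Ordinal.{0}} (h : Sim θ u v) : Sim θ v u := by
  rcases h with h | h
  · exact Or.inl h.symm
  · exact Or.inr ⟨h.2, h.1⟩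

theorem Sim.trans {θ u v w : Ordinal.{0}} (h : Sim θ u v) (h' : Sim θ v w) : Sim θ u w := by
  rcases h with h | h
  · rw [h]
    exact h'
  · rcases h' with h' | h'
    · rw [← h']
      exact Or.inr h
    · exact Or.inr ⟨h.1, h'.2⟩

theorem Sim.le {θ u v : Ordinal.{0}} (h : Sim θ u v) (hu : θ ≤ u) : v = u := by
  rcases h with h | h
  · exact h.symm
  · exact absurd h.1 (not_lt.2 hu)

theorem sim_of_rho {θ x y z : Ordinal.{0}} (hxy : x < y) (hyz : y < z) (hz : z < w2)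
    (h : rho y z < θ) : Sim θ (rho x y) (rho x z) := by
  have h1 := rho_tri1 hxy hyz hz
  have h2 := rho_tri2 hxy hyz hz
  rcases lt_or_ge (rho x y) θ with h3 | h3
  · exact Or.inr ⟨h3, h1.trans_lt (max_lt h3 h)⟩
  · left
    have h4 : rho x y ≤ rho x z := by
      rcases le_max_iff.1 h2 with h5 | h5
      · exact h5
      · exact absurd (h3.trans h5) (not_le.2 h)
    have h5 : rho x z ≤ rho x y := by
      rcases le_max_iff.1 h1 with h6 | h6
      · exact h6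
      · exact absurd (h3.trans (h4.trans h6)) (not_le.2 h)
    exact le_antisymm h4 h5

section

variable {f : Finset Ordinal.{0} → Ordinal.{0}} {A : Set Ordinal.{0}} (hA : IsClosedCopy A)
  {ξ : Ordinal.{0}}

theorem miss_left (hm : Miss f A ξ) (t : ℕ) {S T : Set (Set.Iio w1)} (hS : IsStationary S)
    (hT : IsStationary T) (u : Set.Iio w1 → Ordinal.{0}) (hu : ∀ i ∈ S, ξ ≤ u i ∧ u i < w1)
    (hq : ∀ i ∈ S, ∀ j ∈ T, i < j → i ∈ limitPts → j ∈ limitPts →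
      qt f t (hA.enum i) (hA.enum j) = u i) : False := by
  obtain ⟨n, hn⟩ := isOmega1_W.pigeon hS (fun (n : ℕ) i => en (u i) n = ξ)
    (fun i hi => en_surj (hu i hi).2 (hu i hi).1)
  obtain ⟨i, ⟨hiS, hi⟩, j, hjT, hij, hil, hjl, hpsi⟩ := hA.exists_psi hn hT (Nat.pair t n)
  apply hm _ (hA.enum_mem i) _ (hA.enum_mem j) (hA.enum_strictMono hij)
  unfold col
  rw [hpsi, Nat.unpair_pair]
  show en (qt f t _ _) n = ξ
  rw [hq i hiS j hjT hij hil hjl]
  exact hi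

theorem miss_right (hm : Miss f A ξ) (t : ℕ) {S T : Set (Set.Iio w1)} (hS : IsStationary S)
    (hT : IsStationary T) (u : Set.Iio w1 → Ordinal.{0}) (hu : ∀ j ∈ T, ξ ≤ u j ∧ u j < w1)
    (hq : ∀ i ∈ S, ∀ j ∈ T, i < j → i ∈ limitPts → j ∈ limitPts →
      qt f t (hA.enum i) (hA.enum j) = u j) : False := by
  obtain ⟨n, hn⟩ := isOmega1_W.pigeon hT (fun (n : ℕ) i => en (u i) n = ξ)
    (fun i hi => en_surj (hu i hi).2 (hu i hi).1)
  obtain ⟨i, hiS, j, ⟨hjT, hj⟩, hij, hil, hjl, hpsi⟩ := hA.exists_psi hS hn (Nat.pair t n)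
  apply hm _ (hA.enum_mem i) _ (hA.enum_mem j) (hA.enum_strictMono hij)
  unfold col
  rw [hpsi, Nat.unpair_pair]
  show en (qt f t _ _) n = ξ
  rw [hq i hiS j hjT hij hil hjl]
  exact hj

theorem univ_stat : IsStationary (Set.univ : Set (Set.Iio w1)) :=
  isStationary_univ_iff.2 isOmega1_W.nonempty

/-- For every stationary `T` and `p` the `p`-th element of the ladder is constant on a stationary
subset of `T`. -/
theorem fact1 (hm : Miss f A ξ) (hξ : ξ < w1) (hAw : ∀ α ∈ A, α < w2) {T : Set (Set.Iio w1)}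
    (hT : IsStationary T) (p : ℕ) : ∃ x, IsStationary {j ∈ T | lad (hA.enum j) p = x} := by
  have h := isOmega1_W
  have hL := hA.isLadder
  have haw : ∀ i, hA.enum i < w2 := fun i => hAw _ (hA.enum_mem i)
  have h1 : ∀ j : Set.Iio w1, ∃ v, j ∈ limitPts → v < j ∧ lad (hA.enum j) p < hA.enum v := by
    intro j
    by_cases hj : j ∈ limitPts
    · obtain ⟨v, hv1, hv2⟩ := hA.cont hj ((lad_spec (hA.exists_ladder hj)).2.1 p)
      obtain ⟨w, hw1, hw2⟩ := hj.2 v hv1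
      exact ⟨w, fun _ => ⟨hw2, hv2.trans_lt (hA.enum_strictMono hw1)⟩⟩
    · exact ⟨j, fun h => absurd h hj⟩
  choose F hF using h1
  have hT1 := h.inter_club hT isClub_limitPts
  obtain ⟨i0, hT2⟩ := h.fodor hT1 F (fun j hj => (hF j hj.2).1)
  set T2 : Set (Set.Iio w1) := {i ∈ T ∩ limitPts | F i = i0} with hT2def
  have hT2T : ∀ j ∈ T2, j ∈ T ∧ j ∈ limitPts ∧ lad (hA.enum j) p < hA.enum i0 := by
    rintro j ⟨⟨h2, h3⟩, h4⟩
    refine ⟨h2, h3, ?_⟩
    rw [← h4]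
    exact (hF j h3).2
  by_cases hc : ∃ ν < w1, IsStationary {j ∈ T2 | rho (lad (hA.enum j) p) (hA.enum i0) ≤ ν}
  · obtain ⟨ν, hν, hst⟩ := hc
    have hK := rho_countable (haw i0) hν
    obtain ⟨j0, ⟨hj0, hj0'⟩, _⟩ := hst (isClub_limitPts)
    have hKne : Nonempty {x | x < hA.enum i0 ∧ rho x (hA.enum i0) ≤ ν} :=
      ⟨⟨_, (hT2T j0 hj0).2.2, hj0'⟩⟩
    have hKc : Countable {x | x < hA.enum i0 ∧ rho x (hA.enum i0) ≤ ν} := hK.to_subtype
    obtain ⟨g, hg⟩ := exists_surjective_nat {x | x < hA.enum i0 ∧ rho x (hA.enum i0) ≤ ν}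
    obtain ⟨n, hn⟩ := h.pigeon hst (fun (n : ℕ) j => lad (hA.enum j) p = (g n).1) (by
      rintro j ⟨hj1, hj2⟩
      obtain ⟨n, hn⟩ := hg ⟨_, (hT2T j hj1).2.2, hj2⟩
      exact ⟨n, by rw [hn]⟩)
    refine ⟨(g n).1, hn.mono ?_⟩
    rintro j ⟨⟨hj1, _⟩, hj2⟩
    exact ⟨(hT2T j hj1).1, hj2⟩
  · exfalso
    push Not at hc
    have h2 : ∀ v : Set.Iio w1, ∃ C, IsClub C ∧
        Disjoint {j ∈ T2 | rho (lad (hA.enum j) p) (hA.enum i0) ≤ v.1} C := fun v =>
      not_isStationary_iff.1 (hc v.1 v.2)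
    choose C hC hdisj using h2
    have hD := h.isClub_diag C hC
    have hS0 : IsStationary (limitPts ∩ Set.Ioi i0) :=
      (h.inter_club (h.inter_club univ_stat isClub_limitPts) (h.isClub_Ioi i0)).mono
        (fun x hx => ⟨hx.1.2, hx.2⟩)
    obtain ⟨p', hS⟩ := h.pigeon hS0 (fun (n : ℕ) i => hA.enum i0 < lad (hA.enum i) n) (by
      rintro i ⟨hi1, hi2⟩
      exact (lad_spec (hA.exists_ladder hi1)).2.2 _ (hA.enum_strictMono hi2))
    have h3 : ∀ i : Set.Iio w1, ∃ w : Set.Iio w1, hA.enum i0 < lad (hA.enum i) p' →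
        rho (hA.enum i0) (lad (hA.enum i) p') = w.1 := by
      intro i
      by_cases hi : hA.enum i0 < lad (hA.enum i) p'
      · exact ⟨⟨_, rho_lt hi ((lad_le _ _).trans_lt (haw i))⟩, fun _ => rfl⟩
      · exact ⟨i, fun h => absurd h hi⟩
    choose Z hZ using h3
    have hT3 : IsStationary (((T2 ∩ {i | ∀ v < i, i ∈ C v}) ∩ Set.Ioi (⟨ξ, hξ⟩ : Set.Iio w1)) ∩
        {i | ∀ v < i, Z v < i}) :=
      h.inter_club (h.inter_club (h.inter_club hT2 hD) (h.isClub_Ioi _)) (h.isClub_closed Z)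
    have hbig : ∀ j ∈ T2, (∀ v < j, j ∈ C v) → ∀ v : Set.Iio w1, v < j →
        v.1 < rho (lad (hA.enum j) p) (hA.enum i0) := by
      intro j hj hjC v hv
      by_contra hcon
      exact Set.disjoint_left.1 (hdisj v) ⟨hj, not_lt.1 hcon⟩ (hjC v hv)
    refine miss_right hA hm (Nat.pair 0 (Nat.pair (Nat.pair 3 p) (Nat.pair 2 p'))) hS hT3
      (fun j => rho (lad (hA.enum j) p) (hA.enum i0)) ?_ ?_
    · rintro j ⟨⟨⟨hj1, hj2⟩, hj3⟩, hj4⟩
      refine ⟨(hbig j hj1 hj2 ⟨ξ, hξ⟩ hj3).le, ?_⟩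
      exact rho_lt (hT2T j hj1).2.2 (haw i0)
    · rintro i ⟨⟨hi1, hi2⟩, hi3⟩ j ⟨⟨⟨hj1, hj2⟩, hj3⟩, hj4⟩ hij _ _
      rw [qt_zero, pt_three, pt_two]
      have h4 : lad (hA.enum j) p < hA.enum i0 := (hT2T j hj1).2.2
      have h5 : hA.enum i0 < lad (hA.enum i) p' := hi3
      have h6 : lad (hA.enum i) p' < w2 := (lad_le _ _).trans_lt (haw i)
      rw [rho'_of_lt (h4.trans h5)]
      have h7 : rho (hA.enum i0) (lad (hA.enum i) p') < rho (lad (hA.enum j) p) (hA.enum i0) := by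
        rw [hZ i h5]
        exact hbig j hj1 hj2 _ (hj4 i hij)
      have h8 := rho_tri1 h4 h5 h6
      have h9 := rho_tri2 h4 h5 h6
      rw [max_eq_left h7.le] at h8
      rcases le_max_iff.1 h9 with h10 | h10
      · exact le_antisymm h8 h10
      · exact absurd h10 (not_le.2 h7)

/-- `x` occurs at a fixed place of the ladders on a stationary subset of `T`. -/
def Good (T : Set (Set.Iio w1)) (x : Ordinal.{0}) : Prop :=
  ∃ p : ℕ, IsStationary {j ∈ T | lad (hA.enum j) p = x}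

theorem good_club (hm : Miss f A ξ) (hξ : ξ < w1) (hAw : ∀ α ∈ A, α < w2)
    (T : Set (Set.Iio w1)) :
    ∃ D : Set (Set.Iio w1), IsClub D ∧ ∀ j ∈ D, j ∈ T → ∀ p, Good hA T (lad (hA.enum j) p) := by
  refine IsOmega1.club_of_not_stat (D := {j | j ∈ T → ∀ p, Good hA T (lad (hA.enum j) p)}) ?_
  intro hst
  obtain ⟨p, hp⟩ := isOmega1_W.pigeon hst
    (fun (p : ℕ) j => j ∈ T ∧ ¬ Good hA T (lad (hA.enum j) p)) (by
      intro j hj
      have hj' : ¬ (j ∈ T → ∀ p, Good hA T (lad (hA.enum j) p)) := hj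
      push Not at hj'
      obtain ⟨h1, p, h2⟩ := hj'
      exact ⟨p, h1, h2⟩)
  obtain ⟨x, hx⟩ := fact1 hA hm hξ hAw hp p
  obtain ⟨j, ⟨⟨_, _, hj⟩, hjx⟩, _⟩ := hx isClub_limitPts
  rw [hjx] at hj
  apply hj
  refine ⟨p, hx.mono ?_⟩
  rintro i ⟨⟨_, hi, _⟩, hix⟩
  exact ⟨hi, hix⟩

theorem stab (hm : Miss f A ξ) (hξ : ξ < w1) (hAw : ∀ α ∈ A, α < w2) (θ : Ordinal.{0})
    (T : Set (Set.Iio w1))
    (h1 : ∀ T' ⊆ T, IsStationary T' → ∀ p : ℕ, ∃ j ∈ T',
      rho (lad (hA.enum j) p) (hA.enum j) < θ)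
    (h2 : ∀ T1 ⊆ T, ∀ T2 ⊆ T, IsStationary T1 → IsStationary T2 → ∀ (p1 p2 : ℕ) (x y : Ordinal.{0}),
      (∀ j ∈ T1, lad (hA.enum j) p1 = x) → (∀ j ∈ T2, lad (hA.enum j) p2 = y) → x ≠ y →
      rho' x y < θ) :
    ∃ D : Set (Set.Iio w1), IsClub D ∧ ∀ i, ∀ j ∈ D, ∀ j' ∈ D, j ∈ T → j' ∈ T → i < j → i < j' →
      Sim θ (rho (hA.enum i) (hA.enum j)) (rho (hA.enum i) (hA.enum j')) := by
  have h := isOmega1_W
  have haw : ∀ i, hA.enum i < w2 := fun i => hAw _ (hA.enum_mem i)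
  obtain ⟨D1, hD1, hD1'⟩ := IsOmega1.club_of_not_stat
    (D := {j | j ∈ T → ∀ p, rho (lad (hA.enum j) p) (hA.enum j) < θ}) (by
      intro hst
      obtain ⟨p, hp⟩ := h.pigeon hst
        (fun (p : ℕ) j => j ∈ T ∧ ¬ rho (lad (hA.enum j) p) (hA.enum j) < θ) (by
          intro j hj
          have hj' : ¬ (j ∈ T → ∀ p, rho (lad (hA.enum j) p) (hA.enum j) < θ) := hj
          rw [Classical.not_imp, not_forall] at hj'
          obtain ⟨h1, p, h2⟩ := hj'
          exact ⟨p, h1, h2⟩)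
      obtain ⟨j, ⟨_, _, hj⟩, hj'⟩ := h1 _ (fun j hj => hj.2.1) hp p
      exact hj hj')
  obtain ⟨D2, hD2, hD2'⟩ := good_club hA hm hξ hAw T
  refine ⟨limitPts ∩ (D1 ∩ D2), isClub_limitPts.inter h.cof_ne (hD1.inter h.cof_ne hD2), ?_⟩
  rintro i j ⟨hjl, hj1, hj2⟩ j' ⟨hjl', hj1', hj2'⟩ hjT hjT' hij hij'
  have hspec := lad_spec (hA.exists_ladder hjl)
  have hspec' := lad_spec (hA.exists_ladder hjl')
  obtain ⟨p, hp⟩ := hspec.2.2 _ (hA.enum_strictMono hij)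
  obtain ⟨p', hp'⟩ := hspec'.2.2 _ (hA.enum_strictMono hij')
  have h3 : Sim θ (rho (hA.enum i) (lad (hA.enum j) p)) (rho (hA.enum i) (hA.enum j)) :=
    sim_of_rho hp (hspec.2.1 p) (haw j) (hD1' hj1 hjT p)
  have h4 : Sim θ (rho (hA.enum i) (lad (hA.enum j') p')) (rho (hA.enum i) (hA.enum j')) :=
    sim_of_rho hp' (hspec'.2.1 p') (haw j') (hD1' hj1' hjT' p')
  refine h3.symm.trans (Sim.trans ?_ h4)
  have hw : lad (hA.enum j) p < w2 := (lad_le _ _).trans_lt (haw j)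
  have hw' : lad (hA.enum j') p' < w2 := (lad_le _ _).trans_lt (haw j')
  obtain ⟨r, hr⟩ := hD2' j hj2 hjT p
  obtain ⟨r', hr'⟩ := hD2' j' hj2' hjT' p'
  have h5 : lad (hA.enum j) p ≠ lad (hA.enum j') p' →
      rho' (lad (hA.enum j) p) (lad (hA.enum j') p') < θ := by
    intro hne
    exact h2 _ (fun x hx => hx.1) _ (fun x hx => hx.1) hr hr' r r' _ _ (fun x hx => hx.2)
      (fun x hx => hx.2) hne
  rcases lt_trichotomy (lad (hA.enum j) p) (lad (hA.enum j') p') with hlt | heq | hgt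
  · have h6 := h5 hlt.ne
    rw [rho'_of_lt hlt] at h6
    exact sim_of_rho hp hlt hw' h6
  · rw [heq]
    exact Or.inl rfl
  · have h6 := h5 hgt.ne'
    rw [rho'_of_gt hgt] at h6
    exact (sim_of_rho hp' hgt hw h6).symm

theorem phase1 (hm : Miss f A ξ) (hξ : ξ < w1) (hAw : ∀ α ∈ A, α < w2) :
    ∃ D : Set (Set.Iio w1), IsClub D ∧ ∀ i ∈ D, ∀ j ∈ D, i < j →
      rho (hA.enum i) (hA.enum j) < ξ := by
  have h := isOmega1_W
  have haw : ∀ i, hA.enum i < w2 := fun i => hAw _ (hA.enum_mem i)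
  obtain ⟨D, hD, hD'⟩ := stab hA hm hξ hAw ξ Set.univ (by
      intro T' _ hT' p
      by_contra hcon
      push Not at hcon
      refine miss_right hA hm (Nat.pair 0 (Nat.pair (Nat.pair 3 p) (Nat.pair 1 0))) univ_stat
        (h.inter_club hT' isClub_limitPts)
        (fun j => rho (lad (hA.enum j) p) (hA.enum j)) ?_ ?_
      · rintro j ⟨hj1, hj2⟩
        exact ⟨hcon j hj1, rho_lt ((lad_spec (hA.exists_ladder hj2)).2.1 p) (haw j)⟩
      · rintro i _ j ⟨hj1, hj2⟩ _ _ _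
        rw [qt_zero, pt_three, pt_one, rho'_of_lt ((lad_spec (hA.exists_ladder hj2)).2.1 p)]) (by
      intro T1 _ T2 _ hT1 hT2 p1 p2 x y hx hy hxy
      by_contra hcon
      rw [not_lt] at hcon
      obtain ⟨j1, hj1, _⟩ := hT1 isClub_limitPts
      obtain ⟨j2, hj2, _⟩ := hT2 isClub_limitPts
      have hxw : x < w2 := by
        rw [← hx j1 hj1]
        exact (lad_le _ _).trans_lt (haw j1)
      have hyw : y < w2 := by
        rw [← hy j2 hj2]
        exact (lad_le _ _).trans_lt (haw j2)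
      refine miss_right hA hm (Nat.pair 0 (Nat.pair (Nat.pair 2 p1) (Nat.pair 3 p2))) hT1 hT2
        (fun _ => rho' x y) ?_ ?_
      · intro j _
        exact ⟨hcon, rho'_lt hxw hyw⟩
      · intro i hi j hj _ _ _
        rw [qt_zero, pt_two, pt_three, hx i hi, hy j hj])
  have hS : ¬ IsStationary {i | i ∈ D ∧ ∃ j ∈ D, i < j ∧ ξ ≤ rho (hA.enum i) (hA.enum j)} := by
    intro hst
    have h3 : ∀ i : Set.Iio w1, ∃ j, (i ∈ D ∧ ∃ j ∈ D, i < j ∧ ξ ≤ rho (hA.enum i) (hA.enum j)) →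
        j ∈ D ∧ i < j ∧ ξ ≤ rho (hA.enum i) (hA.enum j) := by
      intro i
      by_cases hi : (i ∈ D ∧ ∃ j ∈ D, i < j ∧ ξ ≤ rho (hA.enum i) (hA.enum j))
      · obtain ⟨_, j, hj⟩ := hi
        exact ⟨j, fun _ => hj⟩
      · exact ⟨i, fun h => absurd h hi⟩
    choose J hJ using h3
    refine miss_left hA hm (Nat.pair 0 (Nat.pair (Nat.pair 0 0) (Nat.pair 1 0))) hst
      (h.inter_club univ_stat hD) (fun i => rho (hA.enum i) (hA.enum (J i))) ?_ ?_
    · intro i hi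
      exact ⟨(hJ i hi).2.2, rho_lt (hA.enum_strictMono (hJ i hi).2.1) (haw _)⟩
    · rintro i hi j ⟨_, hj⟩ hij _ _
      rw [qt_zero, pt_zero, pt_one, rho'_of_lt (hA.enum_strictMono hij)]
      exact (hD' i (J i) (hJ i hi).1 j hj trivial trivial (hJ i hi).2.1 hij).le (hJ i hi).2.2
  have hcc : ∃ C, IsClub C ∧ Disjoint {i | i ∈ D ∧ ∃ j ∈ D, i < j ∧
      ξ ≤ rho (hA.enum i) (hA.enum j)} C := not_isStationary_iff.1 hS
  obtain ⟨C, hC, hdisj⟩ := hcc
  refine ⟨D ∩ C, hD.inter h.cof_ne hC, ?_⟩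
  rintro i ⟨hi1, hi2⟩ j ⟨hj1, hj2⟩ hij
  by_contra hcon
  exact Set.disjoint_left.1 hdisj ⟨hi1, j, hj1, hij, not_lt.1 hcon⟩ hi2

/-- The supremum of the closed ordinals below `ξ`. -/
noncomputable def sg (f : Finset Ordinal.{0} → Ordinal.{0}) (ξ γ : Ordinal.{0}) : Ordinal.{0} :=
  sSup {ν | ν < ξ ∧ Clo f γ ν}

omit hA in
theorem sg_bdd (f : Finset Ordinal.{0} → Ordinal.{0}) (ξ γ : Ordinal.{0}) :
    BddAbove {ν | ν < ξ ∧ Clo f γ ν} := ⟨ξ, fun _ hν => hν.1.le⟩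

theorem sg_le (f : Finset Ordinal.{0} → Ordinal.{0}) (ξ γ : Ordinal.{0}) : sg f ξ γ ≤ ξ := by
  apply csSup_le'
  intro ν hν
  exact hν.1.le

theorem clo_le_sg {f : Finset Ordinal.{0} → Ordinal.{0}} {ξ γ ν : Ordinal.{0}} (h : ν < ξ)
    (h' : Clo f γ ν) : ν ≤ sg f ξ γ := le_csSup (sg_bdd f ξ γ) ⟨h, h'⟩

theorem le_hh {f : Finset Ordinal.{0} → Ordinal.{0}} (hf : ∀ F, f F < w1) {ξ γ l : Ordinal.{0}}
    (hγ : γ < w2) (hl : l < w1) (h : sg f ξ γ ≤ l) : ξ ≤ hh f γ l := by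
  obtain ⟨_, h2, h3⟩ := hh_spec hf hγ hl
  by_contra hcon
  rw [not_le] at hcon
  exact absurd ((clo_le_sg hcon h3).trans h) (not_le.2 h2)

include hA in
theorem main (hf : ∀ F, f F < w1)
    (hunb : ∀ B ⊆ A, IsClosedCopy B → ∀ ν < w1, ∃ F : Finset Ordinal.{0}, ↑F ⊆ B ∧ ν ≤ f F)
    (hAw : ∀ α ∈ A, α < w2) (hξ : ξ < w1) : ¬ Miss f A ξ := by
  intro hm
  have h := isOmega1_W
  have haw : ∀ i, hA.enum i < w2 := fun i => hAw _ (hA.enum_mem i)
  obtain ⟨D, hD, hD'⟩ := phase1 hA hm hξ hAw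
  -- positivity
  have hpos : ∀ D2 : Set (Set.Iio w1), IsClub D2 → ∃ i ∈ D2, ∃ j ∈ D2, i < j ∧
      sg f ξ (hA.enum j) ≤ rho (hA.enum i) (hA.enum j) := by
    intro D2 hD2
    by_contra hcon
    push Not at hcon
    have hsub : hA.enum '' D2 ⊆ A := by
      rintro _ ⟨i, _, rfl⟩
      exact hA.enum_mem i
    obtain ⟨F, hF, hξF⟩ := hunb _ hsub (hA.image hD2) ξ hξ
    have hfin : (hA.enum ⁻¹' (F : Set Ordinal.{0})).Finite :=
      Set.Finite.preimage hA.enum_strictMono.injective.injOn F.finite_toSet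
    haveI hWne : Nonempty (Set.Iio w1) := h.nonempty
    obtain ⟨i0, hi0⟩ := hD2.isCofinal.nonempty
    obtain ⟨b, hb⟩ := h.exists_gt (hfin.countable.insert i0)
    obtain ⟨j, hj, hbj⟩ := hD2.isCofinal b
    have h1 : ∀ x ∈ F, x < hA.enum j ∧ rho x (hA.enum j) < sg f ξ (hA.enum j) := by
      intro x hx
      obtain ⟨i, hi, rfl⟩ := hF hx
      have hij : i < j := (hb i (Or.inr hx)).trans_le hbj
      exact ⟨hA.enum_strictMono hij, hcon i hi j hj hij⟩
    have h2 : (⊥ : Ordinal.{0}) < sg f ξ (hA.enum j) :=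
      bot_le.trans_lt (hcon i0 hi0 j hj ((hb i0 (Or.inl rfl)).trans_le hbj))
    have h3 : F.sup (fun x => rho x (hA.enum j)) < sg f ξ (hA.enum j) := by
      rw [Finset.sup_lt_iff h2]
      intro x hx
      exact (h1 x hx).2
    have hne : {ν | ν < ξ ∧ Clo f (hA.enum j) ν}.Nonempty := by
      by_contra hemp
      rw [Set.not_nonempty_iff_eq_empty] at hemp
      unfold sg at h2
      rw [hemp, csSup_empty] at h2
      exact lt_irrefl _ h2
    obtain ⟨ν, ⟨hν1, hν2⟩, hν3⟩ := exists_lt_of_lt_csSup hne h3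
    have h4 : f F < ν := by
      apply hν2
      intro x hx
      exact ⟨(h1 x hx).1, (Finset.le_sup (f := fun x => rho x (hA.enum j)) hx).trans_lt hν3⟩
    exact absurd (h4.trans hν1) (not_lt.2 hξF)
  -- fix the value
  obtain ⟨σ, hσ⟩ : ∃ σ, ∀ D2 : Set (Set.Iio w1), IsClub D2 → ∃ i ∈ D2, ∃ j ∈ D2, i < j ∧
      sg f ξ (hA.enum j) = σ ∧ σ ≤ rho (hA.enum i) (hA.enum j) := by
    by_contra hcon
    push Not at hcon
    choose E hE hE' using fun n : ℕ => hcon (en ξ n)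
    obtain ⟨i, hi, j, hj, hij, hle⟩ := hpos (⋂ n, E n) (IsClub.iInter_of_countable h.cof_ne hE)
    obtain ⟨n, hn⟩ := en_surj hξ (sg_le f ξ (hA.enum j))
    have h1 := hE' n i (Set.mem_iInter.1 hi n) j (Set.mem_iInter.1 hj n) hij hn.symm
    rw [hn] at h1
    exact absurd hle (not_le.2 h1)
  set T : Set (Set.Iio w1) := {j | sg f ξ (hA.enum j) = σ} with hTdef
  have hTst : IsStationary T := by
    intro D2 hD2
    obtain ⟨i, _, j, hj, _, hj2, _⟩ := hσ D2 hD2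
    exact ⟨j, hj2, hj⟩
  obtain ⟨D1, hD1, hD1'⟩ := stab hA hm hξ hAw σ T (by
      intro T' hT'T hT' p
      by_contra hcon
      push Not at hcon
      refine miss_right hA hm (Nat.pair 1 (Nat.pair (Nat.pair 3 p) (Nat.pair 1 0))) univ_stat hT'
        (fun j => hh f (hA.enum j) (rho' (lad (hA.enum j) p) (hA.enum j))) ?_ ?_
      · intro j hj
        have h1 : rho' (lad (hA.enum j) p) (hA.enum j) < w1 :=
          rho'_lt ((lad_le _ _).trans_lt (haw j)) (haw j)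
        refine ⟨le_hh hf (haw j) h1 ?_, (hh_spec hf (haw j) h1).1⟩
        have h2 : sg f ξ (hA.enum j) = σ := hT'T hj
        rw [h2]
        refine (hcon j hj).trans ?_
        rcases (lad_le (hA.enum j) p).lt_or_eq with h3 | h3
        · rw [rho'_of_lt h3]
        · rw [h3]
          unfold rho'
          rw [min_self, max_self]
      · intro i _ j hj _ _ _
        rw [qt_one, pt_three, pt_one]) (by
      intro T1 hT1T T2 hT2T hT1 hT2 p1 p2 x y hx hy hxy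
      by_contra hcon
      rw [not_lt] at hcon
      obtain ⟨j1, hj1, _⟩ := hT1 isClub_limitPts
      obtain ⟨j2, hj2, _⟩ := hT2 isClub_limitPts
      have hxw : x < w2 := by
        rw [← hx j1 hj1]
        exact (lad_le _ _).trans_lt (haw j1)
      have hyw : y < w2 := by
        rw [← hy j2 hj2]
        exact (lad_le _ _).trans_lt (haw j2)
      have h1 : rho' x y < w1 := rho'_lt hxw hyw
      refine miss_right hA hm (Nat.pair 1 (Nat.pair (Nat.pair 2 p1) (Nat.pair 3 p2))) hT1 hT2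
        (fun j => hh f (hA.enum j) (rho' x y)) ?_ ?_
      · intro j hj
        refine ⟨le_hh hf (haw j) h1 ?_, (hh_spec hf (haw j) h1).1⟩
        have h2 : sg f ξ (hA.enum j) = σ := hT2T hj
        rw [h2]
        exact hcon
      · intro i hi j hj _ _ _
        rw [qt_one, pt_two, pt_three, hx i hi, hy j hj])
  have hD2 : IsClub (D ∩ D1) := hD.inter h.cof_ne hD1
  have hSst : IsStationary {i | i ∈ D ∩ D1 ∧ ∃ j ∈ D ∩ D1, j ∈ T ∧ i < j ∧
      σ ≤ rho (hA.enum i) (hA.enum j)} := by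
    intro D3 hD3
    obtain ⟨i, hi, j, hj, hij, hj1, hj2⟩ := hσ _ (hD2.inter h.cof_ne hD3)
    exact ⟨i, ⟨hi.1, j, hj.1, hj1, hij, hj2⟩, hi.2⟩
  refine miss_right hA hm (Nat.pair 1 (Nat.pair (Nat.pair 0 0) (Nat.pair 1 0))) hSst
    (h.inter_club hTst hD2) (fun j => sInf {ν | ν < w1 ∧ ξ ≤ ν ∧ Clo f (hA.enum j) ν}) ?_ ?_
  · rintro j ⟨hj1, hj2⟩
    obtain ⟨ν, hν1, hν2, hν3⟩ := exists_clo hf (haw j) hξ
    have h1 := csInf_mem (s := {ν | ν < w1 ∧ ξ ≤ ν ∧ Clo f (hA.enum j) ν}) ⟨ν, hν1, hν2.le, hν3⟩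
    exact ⟨h1.2.1, h1.1⟩
  · rintro i ⟨hi1, j', hj', hj'T, hij', hσ'⟩ j ⟨hjT, hj1⟩ hij _ _
    rw [qt_one, pt_zero, pt_one, rho'_of_lt (hA.enum_strictMono hij)]
    have h1 : rho (hA.enum i) (hA.enum j) = rho (hA.enum i) (hA.enum j') :=
      (hD1' i j' hj'.2 j hj1.2 hj'T hjT hij' hij).le hσ'
    have h2 : sg f ξ (hA.enum j) ≤ rho (hA.enum i) (hA.enum j) := by
      rw [h1]
      have h3 : sg f ξ (hA.enum j) = σ := hjT
      rw [h3]
      exact hσ'
    have h3 : rho (hA.enum i) (hA.enum j) < ξ := hD' i hi1.1 j hj1.1 hij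
    unfold hh
    have h4 : {ν | ν < w1 ∧ rho (hA.enum i) (hA.enum j) < ν ∧ Clo f (hA.enum j) ν} =
        {ν | ν < w1 ∧ ξ ≤ ν ∧ Clo f (hA.enum j) ν} := by
      ext ν
      constructor
      · rintro ⟨h5, h6, h7⟩
        refine ⟨h5, ?_, h7⟩
        by_contra hcon
        rw [not_le] at hcon
        exact absurd ((clo_le_sg hcon h7).trans h2) (not_le.2 h6)
      · rintro ⟨h5, h6, h7⟩
        exact ⟨h5, h3.trans_le h6, h7⟩
    rw [h4]

end

end Pool.Agent.Lib.H45Osc
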