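import Pool.Agent.Lib.H45Osc.Osc

/-!
# Closed copies of `ω₁` in the ordinals
-/

set_option autoImplicit false

open Cardinal Order Set

namespace Pool.Agent.Lib.H45Osc

/-- The first uncountable ordinal. -/
noncomputable abbrev w1 : Ordinal.{0} := (Cardinal.aleph.{0} 1).ord

/-- `A` is a set of ordinals of order type exactly `ω₁` which is closed in its own supremum. -/
def IsClosedCopy (A : Set Ordinal.{0}) : Prop :=
  (∀ B ⊆ A, B.Nonempty → (∃ a ∈ A, ∀ b ∈ B, b ≤ a) → sSup B ∈ A) ∧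
    Nonempty (A ≃o Set.Iio (Cardinal.aleph.{0} 1).ord)

theorem countable_Iio_ord {η : Ordinal.{0}} (h : η < w1) : (Set.Iio η).Countable := by
  have h1 : η.card < Cardinal.aleph 1 := Cardinal.lt_ord.1 h
  have h2 : η.card ≤ ℵ₀ := by
    have h3 : (Cardinal.aleph.{0} 1) = Order.succ ℵ₀ := by
      rw [← Cardinal.aleph_zero, Cardinal.succ_aleph, zero_add]
    rw [h3] at h1
    exact Order.lt_succ_iff.1 h1
  rw [← Cardinal.le_aleph0_iff_set_countable, Cardinal.mk_Iio_ordinal]
  rw [← Cardinal.lift_aleph0.{1, 0}]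
  exact Cardinal.lift_le.2 h2

theorem not_countable_Iio_w1 : ¬ (Set.Iio w1).Countable := by
  rw [← Cardinal.le_aleph0_iff_set_countable, Cardinal.mk_Iio_ordinal, Cardinal.card_ord,
    ← Cardinal.lift_aleph0.{1, 0}, Cardinal.lift_le]
  exact not_le.2 (by rw [← Cardinal.aleph_zero]; exact Cardinal.aleph_lt_aleph.2 zero_lt_one)

theorem isOmega1_W : IsOmega1 (Set.Iio w1) := by
  constructor
  · intro i
    have h1 := countable_Iio_ord i.2
    refine (h1.preimage (f := (Subtype.val : Set.Iio w1 → Ordinal.{0})) Subtype.val_injective).mono ?_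
    intro x hx
    exact hx
  · intro h
    apply not_countable_Iio_w1
    have h1 := h.image (Subtype.val : Set.Iio w1 → Ordinal.{0})
    refine h1.mono ?_
    intro x hx
    exact ⟨⟨x, hx⟩, trivial, rfl⟩

/-- A set of ordinals all of whose proper initial segments are countable and which is uncountable
has order type `ω₁`. -/
theorem orderIso_of_countable {B : Set Ordinal.{0}} (h1 : ∀ b ∈ B, (B ∩ Set.Iio b).Countable)
    (h2 : ¬ B.Countable) : Nonempty (B ≃o Set.Iio w1) := by
  have key : Ordinal.type (α := B) (· < ·) = Ordinal.type (α := Set.Iio w1) (· < ·) := by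
    apply le_antisymm
    · by_contra hlt
      rw [not_le] at hlt
      obtain ⟨f⟩ := Ordinal.type_lt_iff.1 hlt
      -- `f` is an initial segment embedding with a top element
      have h3 : (Set.range (fun x : Set.Iio w1 => ((f x : B) : Ordinal.{0}))).Countable := by
        refine (h1 f.top.1 f.top.2).mono ?_
        rintro _ ⟨x, rfl⟩
        refine ⟨(f x).2, ?_⟩
        exact f.lt_top x
      apply isOmega1_W.not_countable
      have h4 : Function.Injective (fun x : Set.Iio w1 => ((f x : B) : Ordinal.{0})) := by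
        intro x y hxy
        exact f.injective (Subtype.ext hxy)
      have h5 := h3.preimage h4
      refine h5.mono ?_
      intro x _
      exact ⟨x, rfl⟩
    · by_contra hlt
      rw [not_le] at hlt
      obtain ⟨f⟩ := Ordinal.type_lt_iff.1 hlt
      apply h2
      have h3 : (Set.range (fun x : B => (f x))).Countable := by
        refine (isOmega1_W.countable_Iio f.top).mono ?_
        rintro _ ⟨x, rfl⟩
        exact f.lt_top x
      have h4 : (Set.univ : Set B).Countable := by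
        have h5 := h3.preimage f.injective
        refine h5.mono ?_
        intro x _
        exact ⟨x, rfl⟩
      have h6 := h4.image Subtype.val
      rw [Set.image_univ, Subtype.range_coe] at h6
      exact h6
  obtain ⟨f⟩ := Ordinal.type_eq.1 key
  exact ⟨OrderIso.ofRelIsoLT f⟩

/-- A ladder below `γ`, if there is one. -/
noncomputable def lad (γ : Ordinal.{0}) : ℕ → Ordinal.{0} :=
  open Classical in
  if h : ∃ s : ℕ → Ordinal.{0}, StrictMono s ∧ (∀ n, s n < γ) ∧ ∀ x < γ, ∃ n, x < s n then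
    Classical.choose h else fun _ => 0

theorem lad_spec {γ : Ordinal.{0}}
    (h : ∃ s : ℕ → Ordinal.{0}, StrictMono s ∧ (∀ n, s n < γ) ∧ ∀ x < γ, ∃ n, x < s n) :
    StrictMono (lad γ) ∧ (∀ n, lad γ n < γ) ∧ ∀ x < γ, ∃ n, x < lad γ n := by
  unfold lad
  rw [dif_pos h]
  exact Classical.choose_spec h

section

variable {A : Set Ordinal.{0}} (hA : IsClosedCopy A)

/-- The increasing enumeration of a closed copy of `ω₁`. -/
noncomputable def IsClosedCopy.enum (hA : IsClosedCopy A) (i : Set.Iio w1) : Ordinal.{0} :=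
  ((Classical.choice hA.2).symm i).1

include hA

theorem IsClosedCopy.enum_mem (i : Set.Iio w1) : hA.enum i ∈ A :=
  ((Classical.choice hA.2).symm i).2

theorem IsClosedCopy.enum_strictMono : StrictMono hA.enum := by
  intro i j hij
  exact (Classical.choice hA.2).symm.strictMono hij

theorem IsClosedCopy.exists_enum {x : Ordinal.{0}} (hx : x ∈ A) : ∃ i, hA.enum i = x := by
  refine ⟨Classical.choice hA.2 ⟨x, hx⟩, ?_⟩
  unfold IsClosedCopy.enum
  rw [OrderIso.symm_apply_apply]

/-- The limit points of `ω₁`. -/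
def limitPts : Set (Set.Iio w1) := {i | (∃ v, v < i) ∧ ∀ v < i, ∃ w, v < w ∧ w < i}

omit hA in
theorem isClub_limitPts : IsClub limitPts := by
  have h := isOmega1_W
  obtain ⟨b0⟩ := h.nonempty
  choose s hs using h.exists_lt
  constructor
  · intro d hd hne _ a ha
    obtain ⟨i, hi⟩ := hne
    constructor
    · obtain ⟨v, hv⟩ := (hd hi).1
      exact ⟨v, hv.trans_le (ha.1 hi)⟩
    · intro v hv
      obtain ⟨j, hj, hvj⟩ := (lt_isLUB_iff ha).1 hv
      obtain ⟨w, hw1, hw2⟩ := (hd hj).2 v hvj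
      exact ⟨w, hw1, hw2.trans_le (ha.1 hj)⟩
  · intro b
    obtain ⟨c, hc⟩ := h.exists_lt (max b b0)
    obtain ⟨δ, hδ, hcδ⟩ := (h.isClub_closed s).isCofinal c
    refine ⟨δ, ⟨⟨b0, ?_⟩, ?_⟩, ?_⟩
    · exact ((le_max_right _ _).trans_lt hc).trans_le hcδ
    · intro v hv
      exact ⟨s v, hs v, hδ v hv⟩
    · exact (((le_max_left _ _).trans_lt hc).trans_le hcδ).le

theorem IsClosedCopy.cont {i : Set.Iio w1} (hi : i ∈ limitPts) {x : Ordinal.{0}}
    (hx : x < hA.enum i) : ∃ v < i, x ≤ hA.enum v := by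
  by_contra hne
  push Not at hne
  obtain ⟨v0, hv0⟩ := hi.1
  have h1 : sSup (hA.enum '' Set.Iio i) ∈ A := by
    apply hA.1
    · rintro _ ⟨v, _, rfl⟩
      exact hA.enum_mem v
    · exact ⟨_, v0, hv0, rfl⟩
    · refine ⟨hA.enum i, hA.enum_mem i, ?_⟩
      rintro _ ⟨v, hv, rfl⟩
      exact (hA.enum_strictMono hv).le
  have hbdd : BddAbove (hA.enum '' Set.Iio i) := by
    refine ⟨x, ?_⟩
    rintro _ ⟨v, hv, rfl⟩
    exact (hne v hv).le
  have h2 : sSup (hA.enum '' Set.Iio i) ≤ x := by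
    refine csSup_le ⟨hA.enum v0, v0, hv0, rfl⟩ ?_
    rintro _ ⟨v, hv, rfl⟩
    exact (hne v hv).le
  obtain ⟨w, hw⟩ := hA.exists_enum h1
  have h3 : w < i := by
    rw [← hA.enum_strictMono.lt_iff_lt, hw]
    exact h2.trans_lt hx
  obtain ⟨w', hw1, hw2⟩ := hi.2 w h3
  have h4 : hA.enum w' ≤ sSup (hA.enum '' Set.Iio i) := le_csSup hbdd ⟨w', hw2, rfl⟩
  rw [← hw] at h4
  exact absurd (hA.enum_strictMono hw1) (not_lt.2 h4)

theorem IsClosedCopy.exists_ladder {i : Set.Iio w1} (hi : i ∈ limitPts) :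
    ∃ s : ℕ → Ordinal.{0}, StrictMono s ∧ (∀ n, s n < hA.enum i) ∧
      ∀ x < hA.enum i, ∃ n, x < s n := by
  obtain ⟨v0, hv0⟩ := hi.1
  have hcount : Countable (Set.Iio i) := (isOmega1_W.countable_Iio i).to_subtype
  have hne : Nonempty (Set.Iio i) := ⟨⟨v0, hv0⟩⟩
  obtain ⟨f, hf⟩ := exists_surjective_nat (Set.Iio i)
  have h1 : ∀ v w : Set.Iio i, ∃ z : Set.Iio i, v < z ∧ w < z := by
    intro v w
    obtain ⟨z, hz1, hz2⟩ := hi.2 (max v.1 w.1) (max_lt v.2 w.2)
    exact ⟨⟨z, hz2⟩, (le_max_left _ _).trans_lt hz1, (le_max_right _ _).trans_lt hz1⟩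
  choose g hg1 hg2 using h1
  let t : ℕ → Set.Iio i := fun n => Nat.rec (f 0) (fun n ih => g ih (f (n + 1))) n
  have ht : ∀ n, t (n + 1) = g (t n) (f (n + 1)) := fun n => rfl
  have htm : StrictMono t := strictMono_nat_of_lt_succ fun n => by rw [ht]; exact hg1 _ _
  have htf : ∀ n, f n ≤ t n := by
    intro n
    cases n with
    | zero => exact le_rfl
    | succ n => rw [ht]; exact (hg2 _ _).le
  refine ⟨fun n => hA.enum (t n).1, ?_, ?_, ?_⟩
  · intro m n hmn
    exact hA.enum_strictMono (htm hmn)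
  · intro n
    exact hA.enum_strictMono (t n).2
  · intro x hx
    obtain ⟨v, hv, hxv⟩ := hA.cont hi hx
    obtain ⟨n, hn⟩ := hf ⟨v, hv⟩
    refine ⟨n + 1, hxv.trans_lt (hA.enum_strictMono ?_)⟩
    have h2 : (⟨v, hv⟩ : Set.Iio i) < t (n + 1) := by
      rw [← hn]
      exact (htf n).trans_lt (htm (Nat.lt_succ_self n))
    exact h2

theorem IsClosedCopy.isLadder :
    IsLadder limitPts hA.enum (fun i => lad (hA.enum i)) := by
  refine ⟨isClub_limitPts, hA.enum_strictMono, fun i hi x hx => hA.cont hi hx,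
    fun i hi => (lad_spec (hA.exists_ladder hi)).1, fun i hi => (lad_spec (hA.exists_ladder hi)).2.1,
    ?_⟩
  intro i hi v hv
  exact (lad_spec (hA.exists_ladder hi)).2.2 _ (hA.enum_strictMono hv)

/-- The main oscillation theorem for closed copies of `ω₁`. -/
theorem IsClosedCopy.exists_psi {S T : Set (Set.Iio w1)} (hS : IsStationary S)
    (hT : IsStationary T) (m : ℕ) :
    ∃ i ∈ S, ∃ j ∈ T, i < j ∧ i ∈ limitPts ∧ j ∈ limitPts ∧
      psi (osc lad (hA.enum i) (hA.enum j)) = m :=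
  Pool.Agent.Lib.H45Osc.exists_psi isOmega1_W hA.isLadder lad (fun _ _ => rfl) hS hT m

/-- The image of a club is again a closed copy of `ω₁`. -/
theorem IsClosedCopy.image {D : Set (Set.Iio w1)} (hD : IsClub D) :
    IsClosedCopy (hA.enum '' D) := by
  constructor
  · intro B hB hBne hBb
    obtain ⟨b0, hb0, hb1⟩ := hBb
    obtain ⟨j, hj, rfl⟩ := hb0
    have hBA : B ⊆ A := by
      intro x hx
      obtain ⟨i, _, rfl⟩ := hB hx
      exact hA.enum_mem i
    have h1 : sSup B ∈ A := hA.1 B hBA hBne ⟨_, hA.enum_mem j, hb1⟩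
    obtain ⟨w, hw⟩ := hA.exists_enum h1
    have hbdd : BddAbove B := ⟨_, hb1⟩
    refine ⟨w, ?_, hw⟩
    refine hD.isLUB_mem (t := {i | hA.enum i ∈ B}) ?_ ?_ ?_
    · intro i hi
      obtain ⟨i', hi', hii⟩ := hB hi
      rw [← hA.enum_strictMono.injective hii]
      exact hi'
    · obtain ⟨x, hx⟩ := hBne
      obtain ⟨i, _, rfl⟩ := hB hx
      exact ⟨i, hx⟩
    · constructor
      · intro i hi
        rw [← hA.enum_strictMono.le_iff_le, hw]
        exact le_csSup hbdd hi
      · intro y hy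
        rw [← hA.enum_strictMono.le_iff_le, hw]
        apply csSup_le hBne
        intro x hx
        obtain ⟨i, _, rfl⟩ := hB hx
        exact hA.enum_strictMono.monotone (hy hx)
  · apply orderIso_of_countable
    · rintro _ ⟨i, _, rfl⟩
      refine ((isOmega1_W.countable_Iio i).image hA.enum).mono ?_
      rintro _ ⟨⟨j, _, rfl⟩, hji⟩
      exact ⟨j, hA.enum_strictMono.lt_iff_lt.1 hji, rfl⟩
    · intro hc
      have h1 : D.Countable := by
        have h2 := hc.preimage hA.enum_strictMono.injective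
        refine h2.mono ?_
        intro i hi
        exact ⟨i, hi, rfl⟩
      obtain ⟨b, hb⟩ := isOmega1_W.exists_gt h1
      obtain ⟨i, hi, hbi⟩ := hD.isCofinal b
      exact absurd (hb i hi) (not_lt.2 hbi)

/-- If every closed copy inside `A` has a point in `P`, then `P` is stationary in `A`. -/
theorem IsClosedCopy.stationary_of {P : Ordinal.{0} → Prop}
    (h : ∀ B ⊆ A, IsClosedCopy B → ∃ β ∈ B, P β) : IsStationary {i | P (hA.enum i)} := by
  intro D hD
  have h1 : hA.enum '' D ⊆ A := by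
    rintro _ ⟨i, _, rfl⟩
    exact hA.enum_mem i
  obtain ⟨_, ⟨i, hi, rfl⟩, hP⟩ := h _ h1 (hA.image hD)
  exact ⟨i, hP, hi⟩

end

/-- For `η < ω₁`, an enumeration of all ordinals `≤ η`. -/
noncomputable def en (η : Ordinal.{0}) : ℕ → Ordinal.{0} :=
  open Classical in
  if h : ∃ f : ℕ → Ordinal.{0}, (∀ n, f n ≤ η) ∧ ∀ ξ ≤ η, ∃ n, f n = ξ then
    Classical.choose h else fun _ => 0

theorem en_exists {η : Ordinal.{0}} (hη : η < w1) :
    ∃ f : ℕ → Ordinal.{0}, (∀ n, f n ≤ η) ∧ ∀ ξ ≤ η, ∃ n, f n = ξ := by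
  have h1 : (Set.Iic η).Countable := by
    have h2 : Set.Iic η = insert η (Set.Iio η) := by
      ext x
      simp only [Set.mem_Iic, Set.mem_insert_iff, Set.mem_Iio]
      exact le_iff_eq_or_lt
    rw [h2]
    exact (countable_Iio_ord hη).insert η
  have h3 : Countable (Set.Iic η) := h1.to_subtype
  have h4 : Nonempty (Set.Iic η) := ⟨⟨η, Set.mem_Iic.2 le_rfl⟩⟩
  obtain ⟨f, hf⟩ := exists_surjective_nat (Set.Iic η)
  refine ⟨fun n => (f n).1, fun n => (f n).2, ?_⟩
  intro ξ hξ
  obtain ⟨n, hn⟩ := hf ⟨ξ, hξ⟩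
  exact ⟨n, congrArg Subtype.val hn⟩

theorem en_le (η : Ordinal.{0}) (n : ℕ) : en η n ≤ η := by
  unfold en
  split
  · rename_i h
    exact (Classical.choose_spec h).1 n
  · exact bot_le

theorem en_surj {η : Ordinal.{0}} (hη : η < w1) {ξ : Ordinal.{0}} (hξ : ξ ≤ η) :
    ∃ n, en η n = ξ := by
  unfold en
  rw [dif_pos (en_exists hη)]
  exact (Classical.choose_spec (en_exists hη)).2 ξ hξ

end Pool.Agent.Lib.H45Osc
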