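import Pool.Agent.Lib.H45Osc.Stat

/-!
# Oscillations of ladders along a closed copy of `ω₁`

`a : W → X` is a strictly increasing map from a well-order of type `ω₁` which is continuous at the
points of a club `E`, and `L i` is a ladder (a strictly increasing cofinal sequence) below `a i` for
`i ∈ E`.  For two stationary subsets `S, T` of `E` the oscillation numbers of pairs `i < j`,
`i ∈ S`, `j ∈ T`, meet every long enough interval of natural numbers.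
-/

set_option autoImplicit false

open Cardinal Order Set

universe u v

namespace Pool.Agent.Lib.H45Osc

variable {W : Type u} [LinearOrder W] [WellFoundedLT W] {X : Type v} [LinearOrder X]

/-- `L i` is a ladder below `a i` for every `i` in the club `E`. -/
structure IsLadder (E : Set W) (a : W → X) (L : W → ℕ → X) : Prop where
  club : IsClub E
  mono : StrictMono a
  cont : ∀ i ∈ E, ∀ x < a i, ∃ v < i, x ≤ a v
  lmono : ∀ i ∈ E, StrictMono (L i)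
  lt : ∀ i ∈ E, ∀ n, L i n < a i
  cofinal : ∀ i ∈ E, ∀ v < i, ∃ n, a v < L i n

/-- The number of indices `k` such that `C γ k < β` and some `C β l` lies in
`[C γ k, C γ (k + 1))`. -/
noncomputable def osc (C : X → ℕ → X) (β γ : X) : ℕ :=
  Set.ncard {k : ℕ | C γ k < β ∧ ∃ l, C γ k ≤ C β l ∧ C β l < C γ (k + 1)}

/-- For every `b' ≥ b`, stationary many `i ∈ S` have exactly the first `m` ladder elements below
`a b`, and exactly these below `a b'`. -/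
def Pers (a : W → X) (L : W → ℕ → X) (S : Set W) (m : ℕ) (b : W) : Prop :=
  ∀ b', b ≤ b' → IsStationary {i ∈ S | (∀ k < m, L i k ≤ a b) ∧ a b' < L i m}

section

variable {E : Set W} {a : W → X} {L : W → ℕ → X}

theorem exists_bound (hE : IsLadder E a L) {δ : W} (hδ : δ ∈ E) {b0 : W} (hb0 : b0 < δ)
    (f : ℕ → X) (m : ℕ) (hf : ∀ k < m, f k < a δ) :
    ∃ b, b0 ≤ b ∧ b < δ ∧ ∀ k < m, f k ≤ a b := by
  induction m with
  | zero => exact ⟨b0, le_rfl, hb0, fun k hk => absurd hk (Nat.not_lt_zero k)⟩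
  | succ m ih =>
    obtain ⟨b, hb1, hb2, hb3⟩ := ih fun k hk => hf k (Nat.lt_succ_of_lt hk)
    obtain ⟨v, hv1, hv2⟩ := hE.cont δ hδ _ (hf m (Nat.lt_succ_self m))
    refine ⟨max b v, hb1.trans (le_max_left _ _), max_lt hb2 hv1, ?_⟩
    intro k hk
    rcases Nat.lt_succ_iff_lt_or_eq.1 hk with hk | rfl
    · exact (hb3 k hk).trans (hE.mono.monotone (le_max_left _ _))
    · exact hv2.trans (hE.mono.monotone (le_max_right _ _))

theorem exists_pers (h : IsOmega1 W) (hE : IsLadder E a L) {S : Set W} (hS : IsStationary S)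
    (hSE : S ⊆ E) (b0 : W) : ∃ m b, b0 ≤ b ∧ Pers a L S m b := by
  by_contra hne
  have h1 : ∀ (m : ℕ) (b : W), ∃ b', ∃ D : Set W, IsClub D ∧
      (b0 ≤ b → Disjoint {i ∈ S | (∀ k < m, L i k ≤ a b) ∧ a b' < L i m} D) := by
    intro m b
    by_cases hb : b0 ≤ b
    · have h2 : ¬ Pers a L S m b := fun hp => hne ⟨m, b, hb, hp⟩
      unfold Pers at h2
      push Not at h2
      obtain ⟨b', hb', hns⟩ := h2
      obtain ⟨D, hD, hdisj⟩ := not_isStationary_iff.1 hns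
      exact ⟨b', D, hD, fun _ => hdisj⟩
    · exact ⟨b, Set.univ, IsClub.univ, fun hb' => absurd hb' hb⟩
  choose F D hD hdisj using h1
  obtain ⟨δ, ⟨hδ1, hδ2⟩, hδ3⟩ : ∃ δ, (δ ∈ E ∧ δ ∈ {i | ∀ v < i, ∀ n, F n v < i}) ∧ b0 < δ := by
    obtain ⟨b1, hb1⟩ := h.exists_lt b0
    obtain ⟨δ, hδ, hδ'⟩ := (hE.club.inter h.cof_ne (h.isClub_closed_nat F)).isCofinal b1
    exact ⟨δ, hδ, hb1.trans_le hδ'⟩
  have hDc : IsClub (⋂ p : ℕ × Set.Iio δ, D p.1 p.2.1) := by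
    haveI : Countable (Set.Iio δ) := (h.countable_Iio δ).to_subtype
    exact IsClub.iInter_of_countable h.cof_ne fun p => hD p.1 p.2.1
  obtain ⟨i, hiS, hiD, hiδ⟩ := hS (hDc.inter h.cof_ne (h.isClub_Ioi δ))
  have hiE : i ∈ E := hSE hiS
  have hex : ∃ n, a δ ≤ L i n := by
    obtain ⟨n, hn⟩ := hE.cofinal i hiE δ hiδ
    exact ⟨n, hn.le⟩
  classical
  obtain ⟨b, hb1, hb2, hb3⟩ := exists_bound hE hδ1 hδ3 (L i) (Nat.find hex)
    (fun k hk => not_le.1 (Nat.find_min hex hk))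
  have h3 := Set.mem_iInter.1 hiD (Nat.find hex, ⟨b, hb2⟩)
  refine Set.disjoint_left.1 (hdisj (Nat.find hex) b hb1) ⟨hiS, hb3, ?_⟩ h3
  exact (hE.mono (hδ2 b hb2 _)).trans_le (Nat.find_spec hex)

theorem Pers.shrink {S : Set W} {m : ℕ} {b : W} (hP : Pers a L S m b) :
    Pers a L {i ∈ S | ∀ k < m, L i k ≤ a b} m b := by
  intro b' hb'
  refine (hP b' hb').mono ?_
  rintro i ⟨hi1, hi2, hi3⟩
  exact ⟨⟨hi1, hi2⟩, hi2, hi3⟩

theorem Pers.step (h : IsOmega1 W) (hE : IsLadder E a L) {S : Set W} (hSE : S ⊆ E) {m : ℕ}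
    {b : W} (hP : Pers a L S m b) {b1 : W} (hb1 : b ≤ b1) :
    ∃ S' ⊆ S, ∃ m' b', m < m' ∧ b1 ≤ b' ∧ Pers a L S' m' b' ∧
      ∀ i ∈ S', a b1 < L i m ∧ ∀ k < m', L i k ≤ a b' := by
  have hS1 := hP b1 hb1
  have h1 : ∀ i ∈ {i ∈ S | (∀ k < m, L i k ≤ a b) ∧ a b1 < L i m}, ∃ v < i, L i m ≤ a v := by
    rintro i ⟨hiS, _⟩
    exact hE.cont i (hSE hiS) _ (hE.lt i (hSE hiS) m)
  classical
  choose! f hf1 hf2 using h1
  obtain ⟨v, hv⟩ := h.fodor hS1 f hf1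
  have hsub : {i ∈ {i ∈ S | (∀ k < m, L i k ≤ a b) ∧ a b1 < L i m} | f i = v} ⊆ S := by
    rintro i ⟨⟨hi, _⟩, _⟩
    exact hi
  obtain ⟨m', b', hb', hP'⟩ := exists_pers h hE hv (hsub.trans hSE) (max b1 v)
  refine ⟨_, ?_, m', b', ?_, (le_max_left _ _).trans hb', hP'.shrink, ?_⟩
  · rintro i ⟨hi, _⟩
    exact hsub hi
  · obtain ⟨i, ⟨hi1, hi2⟩, hi3, hi4⟩ := (hP' b' le_rfl).nonempty
    have h2 : L i m ≤ a v := hi2 ▸ hf2 i hi1
    have h3 : L i m < L i m' :=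
      (h2.trans (hE.mono.monotone ((le_max_right _ _).trans hb'))).trans_lt hi4
    exact (hE.lmono i (hSE hi1.1)).lt_iff_lt.1 h3
  · rintro i ⟨⟨⟨_, _, hi3⟩, _⟩, hi5⟩
    exact ⟨hi3, hi5⟩

open Classical in
/-- The number of `k < r` such that some `L i l` lies in `[L j k, L j (k + 1))`. -/
noncomputable def cnt (L : W → ℕ → X) (i j : W) (r : ℕ) : ℕ :=
  ((Finset.range r).filter fun k => ∃ l, L j k ≤ L i l ∧ L i l < L j (k + 1)).card

theorem cnt_le (i j : W) (r : ℕ) : cnt L i j r ≤ r := by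
  classical
  unfold cnt
  refine (Finset.card_filter_le _ _).trans ?_
  rw [Finset.card_range]

theorem cnt_succ_of (i j : W) (r : ℕ) (hr : ∃ l, L j r ≤ L i l ∧ L i l < L j (r + 1)) :
    cnt L i j (r + 1) = cnt L i j r + 1 := by
  classical
  unfold cnt
  rw [Finset.range_add_one, Finset.filter_insert, if_pos hr, Finset.card_insert_of_notMem]
  simp

theorem cnt_congr (i j : W) {r r' : ℕ} (hrr : r ≤ r')
    (hr : ∀ k, r ≤ k → k < r' → ¬ ∃ l, L j k ≤ L i l ∧ L i l < L j (k + 1)) :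
    cnt L i j r' = cnt L i j r := by
  classical
  unfold cnt
  congr 1
  ext k
  simp only [Finset.mem_filter, Finset.mem_range]
  constructor
  · rintro ⟨h1, h2⟩
    refine ⟨?_, h2⟩
    by_contra h3
    exact hr k (not_lt.1 h3) h1 h2
  · rintro ⟨h1, h2⟩
    exact ⟨lt_of_lt_of_le h1 hrr, h2⟩

theorem osc_main (h : IsOmega1 W) (hE : IsLadder E a L) {S T : Set W} (hS : IsStationary S)
    (hT : IsStationary T) (hSE : S ⊆ E) (hTE : T ⊆ E) :
    ∃ N, ∀ K : ℕ, ∃ S' ⊆ S, ∃ T' ⊆ T, ∃ m n bS bT, bS ≤ bT ∧ Pers a L S' m bS ∧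
      Pers a L T' (n + 1) bT ∧ (∀ j ∈ T', ∀ k < n + 1, L j k ≤ a bT) ∧
      ∀ i ∈ S', ∀ j ∈ T', a bT < L i m → K ≤ cnt L i j n ∧ cnt L i j n ≤ K + N := by
  obtain ⟨b0⟩ := h.nonempty
  obtain ⟨m0, bS0, _, hPS0⟩ := exists_pers h hE hS hSE b0
  obtain ⟨n0, bT0, hbT0, hPT0⟩ := exists_pers h hE hT hTE bS0
  obtain ⟨T1, hT1, n1, bT1, hn1, hbT1, hPT1, hT1'⟩ := hPT0.step h hE hTE (le_refl bT0)
  obtain ⟨n, rfl⟩ : ∃ n, n1 = n + 1 := ⟨n1 - 1, by omega⟩
  refine ⟨n, fun K => ?_⟩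
  induction K with
  | zero =>
    refine ⟨S, subset_rfl, T1, hT1, m0, n, bS0, bT1, hbT0.trans hbT1, hPS0, hPT1,
      fun j hj => (hT1' j hj).2, ?_⟩
    intro i _ j _ _
    exact ⟨Nat.zero_le _, by rw [Nat.zero_add]; exact cnt_le i j n⟩
  | succ K ih =>
    obtain ⟨S', hS', T', hT', m, n', bS, bT, hbb, hPS, hPT, hTb, hcnt⟩ := ih
    obtain ⟨S2, hS2, m2, bS2, hm2, hbS2, hPS2, hS2'⟩ := hPS.step h hE (hS'.trans hSE) hbb
    obtain ⟨T2, hT2, n2, bT2, hn2, hbT2, hPT2, hT2'⟩ := hPT.step h hE (hT'.trans hTE) hbS2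
    obtain ⟨n2', rfl⟩ : ∃ n2', n2 = n2' + 1 := ⟨n2 - 1, by omega⟩
    refine ⟨S2, hS2.trans hS', T2, hT2.trans hT', m2, n2', bS2, bT2, hbT2, hPS2, hPT2,
      fun j hj => (hT2' j hj).2, ?_⟩
    intro i hi j hj hij
    have hiE : i ∈ E := hSE (hS' (hS2 hi))
    have hjE : j ∈ E := hTE (hT' (hT2 hj))
    obtain ⟨hi1, hi2⟩ := hS2' i hi
    obtain ⟨hj1, hj2⟩ := hT2' j hj
    have hold := hcnt i (hS2 hi) j (hT2 hj) hi1
    -- the interval between the two blocks of `j` contains a block of `i`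
    have hmid : ∃ l, L j n' ≤ L i l ∧ L i l < L j (n' + 1) := by
      refine ⟨m, ?_, ?_⟩
      · exact ((hTb j (hT2 hj) n' (Nat.lt_succ_self n')).trans_lt hi1).le
      · exact (hi2 m hm2).trans_lt hj1
    have hnew : cnt L i j n2' = cnt L i j (n' + 1) := by
      refine cnt_congr i j (by omega) ?_
      rintro k hk1 hk2 ⟨l, hl1, hl2⟩
      have hk3 : a bS2 < L j k := hj1.trans_le ((hE.lmono j hjE).monotone hk1)
      have hk4 : L j (k + 1) ≤ a bT2 := hj2 (k + 1) (by omega)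
      rcases lt_or_ge l m2 with hl | hl
      · exact absurd (hk3.trans_le hl1) (not_lt.2 (hi2 l hl))
      · have h5 : a bT2 < L i l := hij.trans_le ((hE.lmono i hiE).monotone hl)
        exact absurd (hl2.trans_le hk4) (not_lt.2 h5.le)
    rw [hnew, cnt_succ_of i j n' hmid]
    omega

/-- Oscillation numbers of pairs from `S × T` meet every interval of length `N + 1`. -/
theorem exists_osc (h : IsOmega1 W) (hE : IsLadder E a L) (C : X → ℕ → X)
    (hC : ∀ i ∈ E, C (a i) = L i) {S T : Set W} (hS : IsStationary S)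
    (hT : IsStationary T) (hSE : S ⊆ E) (hTE : T ⊆ E) :
    ∃ N, ∀ K : ℕ, ∃ i ∈ S, ∃ j ∈ T, i < j ∧ K ≤ osc C (a i) (a j) ∧
      osc C (a i) (a j) ≤ K + N := by
  obtain ⟨N, hN⟩ := osc_main h hE hS hT hSE hTE
  refine ⟨N + 1, fun K => ?_⟩
  obtain ⟨S', hS', T', hT', m, n, bS, bT, hbb, hPS, hPT, hTb, hcnt⟩ := hN K
  obtain ⟨i, ⟨hi1, hi2, hi3⟩, hi4⟩ := hPS bT hbb (h.isClub_Ioi bT)
  have hi5 : bT < i := hi4
  obtain ⟨j, ⟨hj1, hj2, hj3⟩, hj4⟩ := hPT i hi5.le (h.isClub_Ioi i)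
  have hij : i < j := hj4
  have hiE : i ∈ E := hSE (hS' hi1)
  have hjE : j ∈ E := hTE (hT' hj1)
  refine ⟨i, hS' hi1, j, hT' hj1, hij, ?_⟩
  have hlast : ∃ l, L j n ≤ L i l ∧ L i l < L j (n + 1) := by
    refine ⟨m, ?_, ?_⟩
    · exact ((hj2 n (Nat.lt_succ_self n)).trans_lt hi3).le
    · exact (hE.lt i hiE m).trans hj3
  have hosc : osc C (a i) (a j) = cnt L i j (n + 1) := by
    classical
    unfold osc cnt
    rw [hC i hiE, hC j hjE, ← Set.ncard_coe_finset]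
    congr 1
    ext k
    simp only [Finset.coe_filter, Finset.mem_range, Set.mem_ofPred_eq]
    constructor
    · rintro ⟨hk1, hk2⟩
      refine ⟨?_, hk2⟩
      by_contra hk3
      exact absurd (hk1.trans hj3) (not_lt.2 ((hE.lmono j hjE).monotone (not_lt.1 hk3)))
    · rintro ⟨hk1, hk2⟩
      exact ⟨(hj2 k hk1).trans_lt (hE.mono hi5), hk2⟩
  have h1 := hcnt i hi1 j hj1 hi3
  rw [hosc, cnt_succ_of i j n hlast]
  omega

/-- A map `ℕ → ℕ` which is constantly `m` on arbitrarily long intervals, for every `m`. -/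
def psi (x : ℕ) : ℕ := (Nat.unpair (Nat.log 2 (x + 1))).1

theorem psi_spec (m N : ℕ) : ∃ K, ∀ x, K ≤ x → x ≤ K + N → psi x = m := by
  obtain ⟨t, ht1, ht2⟩ : ∃ t, (Nat.unpair t).1 = m ∧ N < 2 ^ t := by
    refine ⟨Nat.pair m N, by rw [Nat.unpair_pair], ?_⟩
    exact (Nat.right_le_pair m N).trans_lt Nat.lt_two_pow_self
  refine ⟨2 ^ t - 1, ?_⟩
  intro x hx1 hx2
  have h1 : 1 ≤ 2 ^ t := Nat.one_le_two_pow
  have h2 : Nat.log 2 (x + 1) = t := by
    rw [Nat.log_eq_iff (Or.inr ⟨by norm_num, by omega⟩)]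
    refine ⟨by omega, ?_⟩
    rw [pow_succ]
    omega
  unfold psi
  rw [h2, ht1]

/-- Every natural number is taken by `psi (osc C (a i) (a j))` for some `i < j`, `i ∈ S`,
`j ∈ T`. -/
theorem exists_psi (h : IsOmega1 W) (hE : IsLadder E a L) (C : X → ℕ → X)
    (hC : ∀ i ∈ E, C (a i) = L i) {S T : Set W} (hS : IsStationary S)
    (hT : IsStationary T) (m : ℕ) :
    ∃ i ∈ S, ∃ j ∈ T, i < j ∧ i ∈ E ∧ j ∈ E ∧ psi (osc C (a i) (a j)) = m := by
  obtain ⟨N, hN⟩ := exists_osc h hE C hC (h.inter_club hS hE.club) (h.inter_club hT hE.club)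
    Set.inter_subset_right Set.inter_subset_right
  obtain ⟨K, hK⟩ := psi_spec m N
  obtain ⟨i, ⟨hiS, hiE⟩, j, ⟨hjT, hjE⟩, hij, h1, h2⟩ := hN K
  exact ⟨i, hiS, j, hjT, hij, hiE, hjE, hK _ h1 h2⟩

end

end Pool.Agent.Lib.H45Osc
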