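import Pool.Agent.Lib.H45Osc.Copy

/-!
# A subadditive locally countable function on pairs of ordinals below `ω₂`

This is Todorcevic's function `ρ : [ω₂]² → ω₁`, built from injections of the ordinals below `ω₂`
into `ω₁` rather than from a ladder system.  `Lev g ν γ α` is the relation `ρ(α, γ) ≤ ν`.
-/

set_option autoImplicit false

open Cardinal Order Set

namespace Pool.Agent.Lib.H45Osc

/-- The second uncountable ordinal. -/
noncomputable abbrev w2 : Ordinal.{0} := (Cardinal.aleph.{0} 2).ord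

theorem exists_inj {γ : Ordinal.{0}} (hγ : γ < w2) :
    ∃ g : Ordinal.{0} → Ordinal.{0}, (∀ x < γ, g x < w1) ∧
      ∀ x < γ, ∀ y < γ, g x = g y → x = y := by
  have h1 : γ.card < Cardinal.aleph 2 := Cardinal.lt_ord.1 hγ
  have h2 : γ.card ≤ Cardinal.aleph 1 := by
    have h3 : (Cardinal.aleph.{0} 2) = Order.succ (Cardinal.aleph 1) := by
      rw [Cardinal.succ_aleph]
      congr 1
      exact one_add_one_eq_two.symm
    rw [h3] at h1
    exact Order.lt_succ_iff.1 h1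
  have h4 : #(Set.Iio γ) ≤ #(Set.Iio w1) := by
    rw [Cardinal.mk_Iio_ordinal, Cardinal.mk_Iio_ordinal, Cardinal.card_ord]
    exact Cardinal.lift_le.2 h2
  obtain ⟨f⟩ := Cardinal.le_def _ _ |>.1 h4
  classical
  refine ⟨fun x => if h : x < γ then (f ⟨x, h⟩).1 else 0, ?_, ?_⟩
  · intro x hx
    simp only [dif_pos hx]
    exact (f ⟨x, hx⟩).2
  · intro x hx y hy hxy
    simp only [dif_pos hx, dif_pos hy] at hxy
    have h5 := f.injective (Subtype.ext hxy)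
    exact congrArg Subtype.val h5

/-- A choice of injections `γ → ω₁` for `γ < ω₂`. -/
noncomputable def gi (γ : Ordinal.{0}) : Ordinal.{0} → Ordinal.{0} :=
  open Classical in
  if h : γ < w2 then Classical.choose (exists_inj h) else fun _ => 0

theorem gi_lt {γ : Ordinal.{0}} (hγ : γ < w2) {x : Ordinal.{0}} (hx : x < γ) : gi γ x < w1 := by
  unfold gi
  rw [dif_pos hγ]
  exact (Classical.choose_spec (exists_inj hγ)).1 x hx

theorem gi_inj {γ : Ordinal.{0}} (hγ : γ < w2) {x y : Ordinal.{0}} (hx : x < γ) (hy : y < γ)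
    (hxy : gi γ x = gi γ y) : x = y := by
  unfold gi at hxy
  rw [dif_pos hγ] at hxy
  exact (Classical.choose_spec (exists_inj hγ)).2 x hx y hy hxy

theorem exists_mn {γ α : Ordinal.{0}} (h : α < γ) :
    ∃ y, α ≤ y ∧ y < γ ∧ ∀ z, α ≤ z → z < γ → gi γ y ≤ gi γ z := by
  obtain ⟨_, ⟨y, ⟨hy1, hy2⟩, rfl⟩, hmin⟩ := WellFounded.has_min (wellFounded_lt (α := Ordinal.{0}))
    (gi γ '' Set.Ico α γ) ⟨_, α, ⟨le_rfl, h⟩, rfl⟩
  exact ⟨y, hy1, hy2, fun z hz1 hz2 => not_lt.1 (hmin _ ⟨z, ⟨hz1, hz2⟩, rfl⟩)⟩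

/-- The point of `[α, γ)` at which `gi γ` is least. -/
noncomputable def mn (γ α : Ordinal.{0}) : Ordinal.{0} :=
  open Classical in
  if h : α < γ then Classical.choose (exists_mn h) else 0

theorem mn_spec {γ α : Ordinal.{0}} (h : α < γ) :
    α ≤ mn γ α ∧ mn γ α < γ ∧ ∀ z, α ≤ z → z < γ → gi γ (mn γ α) ≤ gi γ z := by
  unfold mn
  rw [dif_pos h]
  exact Classical.choose_spec (exists_mn h)

/-- The points at which `gi γ` is smaller than at all later points. -/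
def Cm (γ ξ : Ordinal.{0}) : Prop := ξ < γ ∧ ∀ y, ξ < y → y < γ → gi γ ξ < gi γ y

/-- The relation `ρ(α, γ) ≤ ν`. -/
def Lev (ν γ α : Ordinal.{0}) : Prop :=
  ∃ _h : α < γ, gi γ (mn γ α) ≤ ν ∧ (mn γ α = α ∨ Lev ν (mn γ α) α) ∧
    ∀ ξ, ξ < α → Cm γ ξ → Lev ν α ξ
termination_by γ
decreasing_by
  · exact (mn_spec _h).2.1
  · exact _h

theorem lev_iff {ν γ α : Ordinal.{0}} : Lev ν γ α ↔ α < γ ∧ gi γ (mn γ α) ≤ ν ∧
    (mn γ α = α ∨ Lev ν (mn γ α) α) ∧ ∀ ξ, ξ < α → Cm γ ξ → Lev ν α ξ := by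
  rw [Lev]
  exact exists_prop

theorem Lev.lt {ν γ α : Ordinal.{0}} (h : Lev ν γ α) : α < γ := (lev_iff.1 h).1

theorem Cm_mn {γ α : Ordinal.{0}} (hγ : γ < w2) (h : α < γ) : Cm γ (mn γ α) := by
  obtain ⟨h1, h2, h3⟩ := mn_spec h
  refine ⟨h2, fun y hy1 hy2 => ?_⟩
  refine lt_of_le_of_ne (h3 y (h1.trans hy1.le) hy2) ?_
  intro heq
  exact hy1.ne (gi_inj hγ h2 hy2 heq)

theorem mn_eq {γ α β : Ordinal.{0}} (hγ : γ < w2) (hαβ : α ≤ β) (h : α < γ) (hβ : β ≤ mn γ α) :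
    mn γ β = mn γ α := by
  obtain ⟨h1, h2, h3⟩ := mn_spec h
  have hβγ : β < γ := hβ.trans_lt h2
  obtain ⟨h4, h5, h6⟩ := mn_spec hβγ
  refine gi_inj hγ h5 h2 (le_antisymm (h6 _ hβ h2) (h3 _ (hαβ.trans h4) h5))

theorem gi_mn_mono {γ α β : Ordinal.{0}} (hαβ : α ≤ β) (hβ : β < γ) :
    gi γ (mn γ α) ≤ gi γ (mn γ β) := by
  obtain ⟨h4, h5, h6⟩ := mn_spec hβ
  exact (mn_spec (hαβ.trans_lt hβ)).2.2 _ (hαβ.trans h4) h5

/-- Both subadditivity inequalities. -/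
theorem lev_sub (ν γ : Ordinal.{0}) : γ < w2 → ∀ α β, α < β → Lev ν γ β →
    (Lev ν β α → Lev ν γ α) ∧ (Lev ν γ α → Lev ν β α) := by
  induction γ using WellFoundedLT.induction with
  | ind γ ih =>
    intro hγ α β hαβ hβ
    obtain ⟨hβγ, hb1, hb2, hb3⟩ := lev_iff.1 hβ
    have hαγ : α < γ := hαβ.trans hβγ
    obtain ⟨hm1, hm2, hm3⟩ := mn_spec hαγ
    have hCm := Cm_mn hγ hαγ
    constructor
    · intro hα
      rw [lev_iff]
      refine ⟨hαγ, (gi_mn_mono hαβ.le hβγ).trans hb1, ?_, ?_⟩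
      · rcases eq_or_lt_of_le hm1 with heq | hlt
        · exact Or.inl heq.symm
        right
        rcases lt_or_ge (mn γ α) β with hmβ | hmβ
        · exact ((ih β hβγ (hβγ.trans hγ)) α (mn γ α) hlt (hb3 _ hmβ hCm)).2 hα
        · have hmeq := mn_eq hγ hαβ.le hαγ hmβ
          rw [hmeq] at hb2
          rcases hb2 with hb2 | hb2
          · rw [hb2]
            exact hα
          · exact ((ih _ hm2 (hm2.trans hγ)) α β hαβ hb2).1 hα
      · intro ξ hξ hCξ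
        exact ((ih β hβγ (hβγ.trans hγ)) ξ α hξ hα).2 (hb3 ξ (hξ.trans hαβ) hCξ)
    · intro hα
      obtain ⟨_, ha1, ha2, ha3⟩ := lev_iff.1 hα
      rcases lt_or_ge (mn γ α) β with hmβ | hmβ
      · have h1 := hb3 _ hmβ hCm
        rcases ha2 with ha2 | ha2
        · rw [ha2] at h1
          exact h1
        · exact ((ih β hβγ (hβγ.trans hγ)) α (mn γ α) ha2.lt h1).1 ha2
      · have hmeq := mn_eq hγ hαβ.le hαγ hmβ
        rw [hmeq] at hb2
        rcases ha2 with ha2 | ha2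
        · rw [ha2] at hmβ
          exact absurd hαβ (not_lt.2 hmβ)
        · rcases hb2 with hb2 | hb2
          · rw [hb2] at ha2
            exact ha2
          · exact ((ih _ hm2 (hm2.trans hγ)) α β hαβ hb2).2 ha2

theorem Lev.mono {ν ν' : Ordinal.{0}} (hν : ν ≤ ν') (γ : Ordinal.{0}) :
    ∀ α, Lev ν γ α → Lev ν' γ α := by
  induction γ using WellFoundedLT.induction with
  | ind γ ih =>
    intro α h
    obtain ⟨h1, h2, h3, h4⟩ := lev_iff.1 h
    rw [lev_iff]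
    exact ⟨h1, h2.trans hν, h3.imp id (ih _ (mn_spec h1).2.1 α), fun ξ hξ hC => ih α h1 ξ (h4 ξ hξ hC)⟩

theorem countable_gi_le {γ : Ordinal.{0}} (hγ : γ < w2) {ν : Ordinal.{0}} (hν : ν < w1) :
    {x | x < γ ∧ gi γ x ≤ ν}.Countable := by
  have h1 : (Set.Iic ν).Countable := by
    have h2 : Set.Iic ν = insert ν (Set.Iio ν) := by
      ext x
      simp only [Set.mem_Iic, Set.mem_insert_iff, Set.mem_Iio]
      exact le_iff_eq_or_lt
    rw [h2]
    exact (countable_Iio_ord hν).insert ν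
  refine Set.MapsTo.countable_of_injOn (f := gi γ) (t := Set.Iic ν) ?_ ?_ h1
  · intro x hx
    exact hx.2
  · intro x hx y hy hxy
    exact gi_inj hγ hx.1 hy.1 hxy

theorem lev_countable {ν : Ordinal.{0}} (hν : ν < w1) (γ : Ordinal.{0}) : γ < w2 →
    {α | Lev ν γ α}.Countable := by
  induction γ using WellFoundedLT.induction with
  | ind γ ih =>
    intro hγ
    have h1 : (⋃ m ∈ {x | x < γ ∧ gi γ x ≤ ν}, insert m {α | Lev ν m α}).Countable := by
      refine (countable_gi_le hγ hν).biUnion ?_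
      intro m hm
      exact (ih m hm.1 (hm.1.trans hγ)).insert m
    refine h1.mono ?_
    intro α hα
    obtain ⟨h2, h3, h4, _⟩ := lev_iff.1 hα
    refine Set.mem_biUnion (x := mn γ α) ⟨(mn_spec h2).2.1, h3⟩ ?_
    rcases h4 with h4 | h4
    · exact Or.inl h4.symm
    · exact Or.inr h4

theorem exists_bound_w1 {s : Set Ordinal.{0}} (hs : s.Countable) (h : ∀ x ∈ s, x < w1) :
    ∃ b < w1, ∀ x ∈ s, x < b := by
  have h1 : (Subtype.val ⁻¹' s : Set (Set.Iio w1)).Countable := hs.preimage Subtype.val_injective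
  obtain ⟨b, hb⟩ := isOmega1_W.exists_gt h1
  exact ⟨b.1, b.2, fun x hx => hb ⟨x, h x hx⟩ hx⟩

theorem exists_lev (γ : Ordinal.{0}) : γ < w2 → ∀ α < γ, ∃ ν < w1, Lev ν γ α := by
  induction γ using WellFoundedLT.induction with
  | ind γ ih =>
    intro hγ α hα
    obtain ⟨hm1, hm2, hm3⟩ := mn_spec hα
    have h1 : ∃ ν < w1, mn γ α = α ∨ Lev ν (mn γ α) α := by
      rcases eq_or_lt_of_le hm1 with heq | hlt
      · obtain ⟨b⟩ := isOmega1_W.nonempty
        exact ⟨b.1, b.2, Or.inl heq.symm⟩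
      · obtain ⟨ν, hν1, hν2⟩ := ih _ hm2 (hm2.trans hγ) α hlt
        exact ⟨ν, hν1, Or.inr hν2⟩
    obtain ⟨ν1, hν1, hν1'⟩ := h1
    have h2 : ∀ ξ, ∃ ν < w1, ξ < α → Lev ν α ξ := by
      intro ξ
      by_cases hξ : ξ < α
      · obtain ⟨ν, hν, hν'⟩ := ih α hα (hα.trans hγ) ξ hξ
        exact ⟨ν, hν, fun _ => hν'⟩
      · exact ⟨ν1, hν1, fun h => absurd h hξ⟩
    choose F hF1 hF2 using h2
    have h3 : {ξ | ξ < α ∧ Cm γ ξ}.Countable := by
      refine (countable_gi_le hγ (gi_lt hγ hm2)).mono ?_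
      rintro ξ ⟨hξ1, hξ2⟩
      exact ⟨hξ2.1, (hξ2.2 _ (hξ1.trans_le hm1) hm2).le⟩
    obtain ⟨b, hb1, hb2⟩ := exists_bound_w1 (h3.image F) (by rintro _ ⟨ξ, _, rfl⟩; exact hF1 ξ)
    refine ⟨max (gi γ (mn γ α)) (max ν1 b), max_lt (gi_lt hγ hm2) (max_lt hν1 hb1), ?_⟩
    rw [lev_iff]
    refine ⟨hα, le_max_left _ _, ?_, ?_⟩
    · exact hν1'.imp id (Lev.mono ((le_max_left _ _).trans (le_max_right _ _)) _ _)
    · intro ξ hξ hC
      refine Lev.mono ?_ _ _ (hF2 ξ hξ)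
      exact (hb2 _ ⟨ξ, ⟨hξ, hC⟩, rfl⟩).le.trans ((le_max_right _ _).trans (le_max_right _ _))

/-- The function `ρ(x, y)`. -/
noncomputable def rho (x y : Ordinal.{0}) : Ordinal.{0} := sInf {ν | Lev ν y x}

theorem rho_le_iff {x y ν : Ordinal.{0}} (hxy : x < y) (hy : y < w2) :
    rho x y ≤ ν ↔ Lev ν y x := by
  obtain ⟨ν0, _, hν0⟩ := exists_lev y hy x hxy
  have hne : {ν | Lev ν y x}.Nonempty := ⟨ν0, hν0⟩
  constructor
  · intro h
    exact Lev.mono h _ _ (csInf_mem hne)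
  · intro h
    exact csInf_le' h

theorem rho_lt {x y : Ordinal.{0}} (hxy : x < y) (hy : y < w2) : rho x y < w1 := by
  obtain ⟨ν0, hν1, hν0⟩ := exists_lev y hy x hxy
  exact ((rho_le_iff hxy hy).2 hν0).trans_lt hν1

theorem rho_tri1 {x y z : Ordinal.{0}} (hxy : x < y) (hyz : y < z) (hz : z < w2) :
    rho x z ≤ max (rho x y) (rho y z) := by
  rw [rho_le_iff (hxy.trans hyz) hz]
  have h1 : Lev (max (rho x y) (rho y z)) y x :=
    (rho_le_iff hxy (hyz.trans hz)).1 (le_max_left _ _)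
  have h2 : Lev (max (rho x y) (rho y z)) z y := (rho_le_iff hyz hz).1 (le_max_right _ _)
  exact (lev_sub _ z hz x y hxy h2).1 h1

theorem rho_tri2 {x y z : Ordinal.{0}} (hxy : x < y) (hyz : y < z) (hz : z < w2) :
    rho x y ≤ max (rho x z) (rho y z) := by
  rw [rho_le_iff hxy (hyz.trans hz)]
  have h1 : Lev (max (rho x z) (rho y z)) z x :=
    (rho_le_iff (hxy.trans hyz) hz).1 (le_max_left _ _)
  have h2 : Lev (max (rho x z) (rho y z)) z y := (rho_le_iff hyz hz).1 (le_max_right _ _)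
  exact (lev_sub _ z hz x y hxy h2).2 h1

theorem rho_countable {z ν : Ordinal.{0}} (hz : z < w2) (hν : ν < w1) :
    {x | x < z ∧ rho x z ≤ ν}.Countable := by
  refine (lev_countable hν z hz).mono ?_
  rintro x ⟨hx1, hx2⟩
  exact (rho_le_iff hx1 hz).1 hx2

end Pool.Agent.Lib.H45Osc
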